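import Pool.Agent.Lib.MP_ae5b4e_an_c3.Limit

/-!
The potential of the involutions, and the solutions of the fifth order equation.
-/

noncomputable section

namespace Pool.Agent.MP_ae5b4e_an_c3

open Real Set Filter Topology MeasureTheory
open Pool.Agent.MP_ae5b4e_an_rat
open Pool.Agent.MP_ae5b4e_an_total (integral_comp_tau)

variable {U : ℝ → ℝ → ℝ} {κ : ℝ → ℝ}

/-- the mean value of `κ` vanishes -/
theorem integral_κ (h : LFam U κ) : ∫ θ in (0)..(2 * π), κ θ = 0 := by
  have hc : (1/2:ℝ) ∈ Ioo (0:ℝ) 1 := ⟨by norm_num, by norm_num⟩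
  set x : ℝ → ℝ := fun θ => Uf U (1/2, θ) with hx
  set τ : ℝ → ℝ := nxt U (1/2) with hτ
  set f : ℝ → ℝ := fs U (1/2) with hf
  have hxc : Continuous x := LFam.continuous_slice h.continuousOn_Uf hc
  have hτc : Continuous τ := h.continuous_nxt hc
  have hfc : Continuous f := continuous_fs h hc
  have hκc : Continuous κ := h.continuous_κ
  have hτd : ∀ θ, HasDerivAt τ (f θ) θ := h.hasDerivAt_nxt_θ hc
  have hτ2 : τ (2 * π) = τ 0 + 2 * π := by
    have := h.nxt_per hc 0
    rwa [zero_add] at this
  have hxp : ∀ θ, x (θ + 2 * π) = x θ := h.Uf_per hc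
  have s1 : ∫ θ in (0)..(2 * π), κ (τ θ) * f θ = ∫ θ in (0)..(2 * π), κ θ :=
    integral_comp_tau hτd hfc hτ2 hκc h.κ_per
  have s2 : ∫ θ in (0)..(2 * π), x (τ θ) * f θ = ∫ θ in (0)..(2 * π), x θ :=
    integral_comp_tau hτd hfc hτ2 hxc hxp
  have s3 : ∫ θ in (0)..(2 * π), x θ * (1 - f θ) = 0 := by
    have hd : ∀ θ ∈ uIcc 0 (2 * π), HasDerivAt (fun θ => log (1 + x θ ^ 2)) (x θ * (1 - f θ)) θ := by
      intro θ _
      have hY : (0:ℝ) < 1 + x θ ^ 2 := by positivity
      have h1 := (((h.hasDerivAt_θ hc θ).pow 2).const_add 1).log hY.ne'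
      refine h1.congr_deriv ?_
      simp only [hf, fs]
      change _ / (1 + x θ ^ 2) = x θ * (1 - (1 - _ / (1 + x θ ^ 2)))
      field_simp
      push_cast
      change 2 * x θ ^ (2 - 1) * _ = _
      ring
    rw [intervalIntegral.integral_eq_sub_of_hasDerivAt hd
      (Continuous.intervalIntegrable (by fun_prop) _ _)]
    have := hxp 0
    rw [zero_add] at this
    simp only [this, sub_self]
  rw [← s1]
  have e : ∀ θ ∈ uIcc 0 (2 * π), κ (τ θ) * f θ = x (τ θ) * f θ - x θ + x θ * (1 - f θ) := by
    intro θ _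
    have := h.feq' hc θ
    simp only [← hτ] at this
    change x (τ θ) - κ (τ θ) = x θ at this
    linear_combination (-f θ) * this
  rw [intervalIntegral.integral_congr e, intervalIntegral.integral_add
    (Continuous.intervalIntegrable (by fun_prop) _ _)
    (Continuous.intervalIntegrable (by fun_prop) _ _), s3, intervalIntegral.integral_sub
    (Continuous.intervalIntegrable (by fun_prop) _ _)
    (Continuous.intervalIntegrable (by fun_prop) _ _), s2]
  ring

/-- the potential -/
def pot (κ : ℝ → ℝ) (t : ℝ) : ℝ := exp (-∫ u in (0)..t, κ u)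

/-- The potential with its derivatives. -/
theorem isPot_pot (h : LFam U κ) (hκ : ContDiff ℝ 5 κ) :
    IsPot κ (fun j => iteratedDeriv j (pot κ)) := by
  have hκc : Continuous κ := h.continuous_κ
  have hF : ∀ t, HasDerivAt (fun t => ∫ u in (0)..t, κ u) (κ t) t := fun t =>
    intervalIntegral.integral_hasDerivAt_right (hκc.intervalIntegrable _ _)
      (hκc.stronglyMeasurableAtFilter _ _) hκc.continuousAt
  have hF6 : ContDiff ℝ 6 (fun t => ∫ u in (0)..t, κ u) := by
    have e : (6 : WithTop ℕ∞) = 5 + 1 := by norm_num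
    rw [e, contDiff_succ_iff_deriv]
    refine ⟨fun t => (hF t).differentiableAt, ?_, ?_⟩
    · intro h0
      exact absurd h0 (by decide)
    · have : deriv (fun t => ∫ u in (0)..t, κ u) = κ := funext fun t => (hF t).deriv
      rw [this]
      exact hκ
  have hq6 : ContDiff ℝ 6 (pot κ) := hF6.neg.exp
  have hper0 : ∀ t, pot κ (t + 2 * π) = pot κ t := by
    intro t
    unfold pot
    congr 2
    rw [← intervalIntegral.integral_add_adjacent_intervals (hκc.intervalIntegrable 0 t)
      (hκc.intervalIntegrable t (t + 2 * π))]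
    have h2 : Function.Periodic κ (2 * π) := h.κ_per
    rw [h2.intervalIntegral_add_eq t 0, zero_add, integral_κ h, add_zero]
  have hd0 : ∀ t, HasDerivAt (pot κ) (-κ t * pot κ t) t := by
    intro t
    have := (hF t).neg.exp
    refine this.congr_deriv ?_
    unfold pot
    simp only [Pi.neg_apply]
    ring
  have hd1 : deriv (pot κ) = fun t => -κ t * pot κ t := funext fun t => (hd0 t).deriv
  have hd2 : deriv (deriv (pot κ)) = fun t => (κ t ^ 2 - deriv κ t) * pot κ t := by
    funext t
    rw [hd1]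
    have := ((h.hasDerivAt_κ t).neg.mul (hd0 t)).deriv
    refine this.trans ?_
    simp only [Pi.neg_apply]
    ring
  refine { d := ?_, c := ?_, per := ?_, pos := ?_, e1 := ?_, e2 := ?_ }
  · intro j hj t
    have h1 := (hq6.differentiable_iteratedDeriv j (by exact_mod_cast hj)) t
    have h2 := h1.hasDerivAt
    rw [← iteratedDeriv_succ] at h2
    exact h2
  · intro j hj
    exact hq6.continuous_iteratedDeriv j (by exact_mod_cast hj)
  · intro j _ t
    have h1 := iteratedDeriv_comp_add_const (n := j) (f := pot κ) (s := 2 * π)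
    have h2 : (fun z => pot κ (z + 2 * π)) = pot κ := funext hper0
    rw [h2] at h1
    exact (congrFun h1 t).symm
  · intro t
    simp only [iteratedDeriv_zero]
    exact exp_pos _
  · intro t
    simp only [iteratedDeriv_one, iteratedDeriv_zero, hd1]
  · intro t
    have : iteratedDeriv 2 (pot κ) = deriv (deriv (pot κ)) := by
      rw [iteratedDeriv_succ, iteratedDeriv_one]
    simp only [this, iteratedDeriv_zero, hd2]

/-- harmonic oscillator -/
theorem oscillator {a b : ℝ → ℝ} {ω : ℝ} (ha : ∀ t, HasDerivAt a (b t) t)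
    (hb : ∀ t, HasDerivAt b (-(ω ^ 2 * a t)) t) (hω : ω ≠ 0) (t : ℝ) :
    a t = a 0 * cos (ω * t) + b 0 / ω * sin (ω * t) := by
  have hs : ∀ t, HasDerivAt (fun t => sin (ω * t)) (cos (ω * t) * ω) t := fun t => by
    simpa using ((hasDerivAt_id t).const_mul ω).sin
  have hc : ∀ t, HasDerivAt (fun t => cos (ω * t)) (-sin (ω * t) * ω) t := fun t => by
    simpa using ((hasDerivAt_id t).const_mul ω).cos
  have h1 : ∀ t, HasDerivAt (fun t => a t * cos (ω * t) - b t / ω * sin (ω * t)) 0 t := by
    intro t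
    have := ((ha t).mul (hc t)).sub (((hb t).div_const ω).mul (hs t))
    refine this.congr_deriv ?_
    field_simp
    ring
  have h2 : ∀ t, HasDerivAt (fun t => a t * sin (ω * t) + b t / ω * cos (ω * t)) 0 t := by
    intro t
    have := ((ha t).mul (hs t)).add (((hb t).div_const ω).mul (hc t))
    refine this.congr_deriv ?_
    field_simp
    ring
  have k1 := is_const_of_deriv_eq_zero (fun t => (h1 t).differentiableAt)
    (fun t => (h1 t).deriv) t 0
  have k2 := is_const_of_deriv_eq_zero (fun t => (h2 t).differentiableAt)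
    (fun t => (h2 t).deriv) t 0
  simp only [mul_zero, cos_zero, sin_zero, mul_one, sub_zero, zero_add] at k1 k2
  have k3 := sin_sq_add_cos_sq (ω * t)
  linear_combination (-a t) * k3 + cos (ω * t) * k1 + sin (ω * t) * k2

/-- solutions of the fifth order equation -/
theorem solve {q : ℕ → ℝ → ℝ} (hq : Pot q 6) (hE : ∀ t, E5 q t = 0) :
    ∃ A B C D E : ℝ, ∀ t, q 0 t = A + B * cos t + C * sin t + D * cos (2 * t) + E * sin (2 * t) ∧
      q 1 t = -(B * sin t) + C * cos t - 2 * D * sin (2 * t) + 2 * E * cos (2 * t) := by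
  have d0 := hq.d 0 (by norm_num)
  have d1 := hq.d 1 (by norm_num)
  have d2 := hq.d 2 (by norm_num)
  have d3 := hq.d 3 (by norm_num)
  have d4 := hq.d 4 (by norm_num)
  have p1 := oscillator (a := fun t => q 3 t + 4 * q 1 t) (b := fun t => q 4 t + 4 * q 2 t)
    (ω := 1) (fun t => (d3 t).add ((d1 t).const_mul 4))
    (fun t => by
      refine ((d4 t).add ((d2 t).const_mul 4)).congr_deriv ?_
      have := hE t
      unfold E5 at this
      linarith) one_ne_zero
  have p2 := oscillator (a := fun t => q 3 t + q 1 t) (b := fun t => q 4 t + q 2 t)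
    (ω := 2) (fun t => (d3 t).add (d1 t))
    (fun t => by
      refine ((d4 t).add (d2 t)).congr_deriv ?_
      have := hE t
      unfold E5 at this
      linarith) two_ne_zero
  simp only [one_mul, div_one] at p1
  set α := q 3 0 + 4 * q 1 0 with hα
  set β := q 4 0 + 4 * q 2 0 with hβ
  set γ := q 3 0 + q 1 0 with hγ
  set δ := (q 4 0 + q 2 0) / 2 with hδ
  have e1 : ∀ t, q 1 t = (α * cos t + β * sin t - γ * cos (2 * t) - δ * sin (2 * t)) / 3 := by
    intro t
    have a1 := p1 t
    have a2 := p2 t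
    linarith
  have hs : ∀ t, HasDerivAt (fun t => sin (2 * t)) (cos (2 * t) * 2) t := fun t => by
    simpa using ((hasDerivAt_id t).const_mul 2).sin
  have hc : ∀ t, HasDerivAt (fun t => cos (2 * t)) (-sin (2 * t) * 2) t := fun t => by
    simpa using ((hasDerivAt_id t).const_mul 2).cos
  have h1 : ∀ t, HasDerivAt (fun t => q 0 t - (-(β / 3) * cos t + α / 3 * sin t +
      δ / 6 * cos (2 * t) + -(γ / 6) * sin (2 * t))) 0 t := by
    intro t
    have := (d0 t).sub (((((hasDerivAt_cos t).const_mul (-(β / 3))).add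
      ((hasDerivAt_sin t).const_mul (α / 3))).add ((hc t).const_mul (δ / 6))).add
      ((hs t).const_mul (-(γ / 6))))
    refine this.congr_deriv ?_
    rw [zero_add, e1]
    ring
  set A := q 0 0 - (-(β / 3) * cos 0 + α / 3 * sin 0 +
      δ / 6 * cos (2 * 0) + -(γ / 6) * sin (2 * 0)) with hA
  refine ⟨A, -(β / 3), α / 3, δ / 6, -(γ / 6), fun t => ⟨?_, ?_⟩⟩
  · have k1 := is_const_of_deriv_eq_zero (fun t => (h1 t).differentiableAt)
      (fun t => (h1 t).deriv) t 0
    rw [← hA] at k1
    linarith
  · rw [e1]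
    ring

end Pool.Agent.MP_ae5b4e_an_c3
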