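import Pool.Agent.Lib.MP_ae5b4e_an_c3.Tri

/-!
The leaf functional near the boundary, and its vanishing.
-/

noncomputable section

namespace Pool.Agent.MP_ae5b4e_an_c3

open Real Set Filter Topology MeasureTheory
open Pool.Agent.MP_ae5b4e_an_rat

theorem ct_nxt (U : ℝ → ℝ → ℝ) (c θ : ℝ) : ct (nxt U c θ - θ) = Uf U (c, θ) := by
  have e : (nxt U c θ - θ) / 2 = π / 2 - arctan (U c θ) := by
    unfold nxt
    ring
  unfold ct
  rw [e, cos_pi_div_two_sub, sin_pi_div_two_sub, ← tan_eq_sin_div_cos, tan_arctan]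
  rfl

variable {U : ℝ → ℝ → ℝ} {κ : ℝ → ℝ} {q : ℕ → ℝ → ℝ}

theorem unif_small (h : LFam U κ) {η : ℝ} (hη : 0 < η) :
    ∃ c₁ ∈ Ioo (0:ℝ) 1, ∀ c ∈ Ioo 0 c₁, ∀ θ, nxt U c θ ≤ θ + η := by
  set δ := η / 2 with hδ
  have hδ0 : 0 < δ := by rw [hδ]; linarith
  obtain ⟨N, hN⟩ := exists_nat_gt (2 * π / δ)
  have hev : ∀ᶠ c in 𝓝[>] (0:ℝ), ∀ i ∈ Finset.range (N + 2), nxt U c (i * δ) < i * δ + δ := by
    rw [Filter.eventually_all_finset]
    intro i _
    exact (h.tendsto_nxt (i * δ)).eventually_lt_const (by linarith)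
  obtain ⟨c₁, hc₁, hsub⟩ := mem_nhdsGT_iff_exists_Ioo_subset.1 hev
  have hc₁' : 0 < c₁ := hc₁
  refine ⟨min c₁ (1 / 2), ⟨lt_min hc₁' (by norm_num), by
    have := min_le_right c₁ (1 / 2); linarith⟩, fun c hc θ => ?_⟩
  have hcm : c ∈ Ioo (0:ℝ) 1 := ⟨hc.1, by
    have := min_le_right c₁ (1 / 2); linarith [hc.2]⟩
  have hfin : ∀ i ∈ Finset.range (N + 2), nxt U c (i * δ) < i * δ + δ :=
    hsub ⟨hc.1, hc.2.trans_le (min_le_left _ _)⟩
  have hper : Function.Periodic (fun θ => nxt U c θ - θ) (2 * π) := by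
    intro θ
    simp only [h.nxt_per hcm]
    ring
  obtain ⟨y, hy, hfy⟩ := hper.exists_mem_Ico₀ (by positivity) θ
  have hfy' : nxt U c θ - θ = nxt U c y - y := hfy
  have h0 : 0 ≤ y / δ := div_nonneg hy.1 hδ0.le
  have h1 : (⌊y / δ⌋₊ : ℝ) ≤ y / δ := Nat.floor_le h0
  have h2 : y / δ < ⌊y / δ⌋₊ + 1 := Nat.lt_floor_add_one _
  have h3 : y / δ < N := (div_lt_div_of_pos_right hy.2 hδ0).trans hN
  have h4 : ⌊y / δ⌋₊ < N := by
    have : (⌊y / δ⌋₊ : ℝ) < N := h1.trans_lt h3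
    exact_mod_cast this
  have h5 := hfin (⌊y / δ⌋₊ + 1) (Finset.mem_range.2 (by omega))
  push_cast at h5
  have h6 : y < (⌊y / δ⌋₊ + 1) * δ := by
    rwa [div_lt_iff₀ hδ0] at h2
  have h7 : (⌊y / δ⌋₊ : ℝ) * δ ≤ y := by
    rwa [le_div_iff₀ hδ0] at h1
  have h8 := (h.strictMono_nxt hcm).monotone h6.le
  linarith

/-- The leaf functional is small near the boundary. -/
theorem Bf_small (h : LFam U κ) (hq : Pot q 6) {ε : ℝ} (hε : 0 < ε) :
    ∃ c₁ ∈ Ioo (0:ℝ) 1, ∀ c ∈ Ioo 0 c₁, |Bf U q c| ≤ ε := by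
  obtain ⟨C, hC, hR⟩ := R_small hq
  set η := min 1 (ε / (C + 1)) with hη
  have hη0 : 0 < η := lt_min one_pos (by positivity)
  have hη1 : η ≤ 1 := min_le_left _ _
  obtain ⟨c₁, hc₁, hs⟩ := unif_small h hη0
  refine ⟨c₁, hc₁, fun c hc => ?_⟩
  have hcm : c ∈ Ioo (0:ℝ) 1 := ⟨hc.1, hc.2.trans hc₁.2⟩
  have key := hR η hη0 hη1 (fun t => nxt U c t - t) ((h.continuous_nxt hcm).sub continuous_id)
    (fun t => ⟨by linarith [LFam.lt_nxt (U := U) c t], by linarith [hs c hc t]⟩)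
  have e : Bf U q c = ∫ t in (0)..(2 * π), R q (ct (nxt U c t - t)) t (t + (nxt U c t - t)) := by
    unfold Bf
    refine intervalIntegral.integral_congr fun t _ => ?_
    simp only [ct_nxt]
    congr 1
    ring
  rw [← e] at key
  refine key.trans ?_
  have h1 : η ≤ ε / (C + 1) := min_le_right _ _
  have h2 : C * η ≤ C * (ε / (C + 1)) := mul_le_mul_of_nonneg_left h1 hC
  have h3 : C * (ε / (C + 1)) ≤ ε := by
    rw [mul_div_assoc', div_le_iff₀ (by linarith)]
    nlinarith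
  linarith

/-- the integrand of the derivative -/
def gi (U : ℝ → ℝ → ℝ) (q : ℕ → ℝ → ℝ) (c θ : ℝ) : ℝ :=
  -(2 * D1 U (c, θ)) * (Z q (Uf U (c, θ)) θ (nxt U c θ) ^ 2 +
        3 / 2 * ((1 + Uf U (c, θ) ^ 2) / fs U c θ * Vf U q c θ ^ 2))

theorem gi_nonneg (h : LFam U κ) {c : ℝ} (hc : c ∈ Ioo (0:ℝ) 1) (θ : ℝ) :
    0 ≤ gi U q c θ := by
  have h1 := h.D1_neg hc θ
  have h2 : 0 < fs U c θ := (h.pos_facts hc).1 θ
  have h3 : 0 < -(2 * D1 U (c, θ)) := by linarith
  unfold gi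
  positivity

theorem continuous_gi (h : LFam U κ) (hq : Pot q 6) {c : ℝ} (hc : c ∈ Ioo (0:ℝ) 1) :
    Continuous (gi U q c) := by
  have q0 := hq.c 0 (by norm_num)
  have q1 := hq.c 1 (by norm_num)
  have q2 := hq.c 2 (by norm_num)
  have hxc : Continuous fun θ => Uf U (c, θ) := LFam.continuous_slice h.continuousOn_Uf hc
  have hgc : Continuous fun θ => D1 U (c, θ) := LFam.continuous_slice h.continuousOn_D1 hc
  have hτc : Continuous (nxt U c) := h.continuous_nxt hc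
  have hfc : Continuous (fs U c) := continuous_fs h hc
  have hYf : Continuous fun θ => (1 + Uf U (c, θ) ^ 2) / fs U c θ :=
    Continuous.div₀ (by fun_prop) hfc fun θ => ((h.pos_facts hc).1 θ).ne'
  unfold gi Z Vf w m
  fun_prop

theorem monotone_Bf (h : LFam U κ) (hq : IsPot κ q) : MonotoneOn (Bf U q) (Ioo 0 1) := by
  refine monotoneOn_of_deriv_nonneg (convex_Ioo 0 1) ?_ ?_ ?_
  · intro c hc
    exact (hasDerivAt_Bf h hq.toPot hc).continuousAt.continuousWithinAt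
  · intro c hc
    rw [interior_Ioo] at hc
    exact (hasDerivAt_Bf h hq.toPot hc).differentiableAt.differentiableWithinAt
  · intro c hc
    rw [interior_Ioo] at hc
    rw [(hasDerivAt_Bf h hq.toPot hc).deriv, integral_Gf h hq hc]
    exact intervalIntegral.integral_nonneg (by positivity) fun θ _ => gi_nonneg h hc θ

theorem Bf_nonneg (h : LFam U κ) (hq : IsPot κ q) {c : ℝ} (hc : c ∈ Ioo (0:ℝ) 1) :
    0 ≤ Bf U q c := by
  by_contra hneg
  push Not at hneg
  obtain ⟨c₁, hc₁, hs⟩ := Bf_small h hq.toPot (ε := -Bf U q c / 2) (by linarith)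
  set c' := min c c₁ / 2 with hc'
  have h1 : 0 < min c c₁ := lt_min hc.1 hc₁.1
  have h2 : c' < c := by
    have := min_le_left c c₁
    rw [hc']; linarith
  have h3 : c' < c₁ := by
    have := min_le_right c c₁
    rw [hc']; linarith
  have h4 : 0 < c' := by rw [hc']; linarith
  have h5 := hs c' ⟨h4, h3⟩
  have h6 := monotone_Bf h hq ⟨h4, h2.trans hc.2⟩ hc h2.le
  have h7 := (abs_le.1 h5).1
  linarith

/-- The two-point function vanishes below a leaf of triangles. -/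
theorem Z_zero (h : LFam U κ) (hq : IsPot κ q) {c₀ : ℝ} (hc₀ : c₀ ∈ Ioo (0:ℝ) 1)
    (h3 : ∀ θ, nxt U c₀ (nxt U c₀ (nxt U c₀ θ)) = θ + 2 * π) {c : ℝ} (hc : c ∈ Ioo 0 c₀)
    {θ : ℝ} (hθ : θ ∈ Icc 0 (2 * π)) : Z q (Uf U (c, θ)) θ (nxt U c θ) = 0 := by
  have hcm : c ∈ Ioo (0:ℝ) 1 := ⟨hc.1, hc.2.trans hc₀.2⟩
  have hz : ∀ t ∈ Ioo 0 c₀, Bf U q t = 0 := by
    intro t ht
    have htm : t ∈ Ioo (0:ℝ) 1 := ⟨ht.1, ht.2.trans hc₀.2⟩
    have h1 := Bf_nonneg h hq htm
    have h2 := monotone_Bf h hq htm hc₀ ht.2.le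
    have h4 := Bf_nonpos h hq hc₀ h3
    linarith
  have hd : ∫ θ in (0)..(2 * π), gi U q c θ = 0 := by
    have h1 := hasDerivAt_Bf h hq.toPot hcm
    rw [integral_Gf h hq hcm] at h1
    have h2 : HasDerivAt (Bf U q) 0 c := by
      refine (hasDerivAt_const c (0:ℝ)).congr_of_eventuallyEq ?_
      filter_upwards [isOpen_Ioo.mem_nhds hc] with t ht
      exact hz t ht
    exact h1.unique h2
  by_contra hne
  have hlt : 0 < gi U q c θ := by
    have h1 := h.D1_neg hcm θ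
    have h2 : 0 < fs U c θ := (h.pos_facts hcm).1 θ
    have h3 : 0 < -(2 * D1 U (c, θ)) := by linarith
    have h4 : 0 < Z q (Uf U (c, θ)) θ (nxt U c θ) ^ 2 := by positivity
    unfold gi
    refine mul_pos h3 (add_pos_of_pos_of_nonneg h4 (by positivity))
  have key := intervalIntegral.integral_pos (a := 0) (b := 2 * π) (f := gi U q c)
    (by positivity) (continuous_gi h hq.toPot hcm).continuousOn
    (fun t _ => gi_nonneg h hcm t) ⟨θ, hθ, hlt⟩
  rw [hd] at key
  exact lt_irrefl _ key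

/-- The potential satisfies the fifth order equation. -/
theorem E5_zero (h : LFam U κ) (hq : IsPot κ q) {c₀ : ℝ} (hc₀ : c₀ ∈ Ioo (0:ℝ) 1)
    (h3 : ∀ θ, nxt U c₀ (nxt U c₀ (nxt U c₀ θ)) = θ + 2 * π) (t : ℝ) : E5 q t = 0 := by
  have hE : Continuous (E5 q) := by
    unfold E5
    have h1 := hq.c 5 (by norm_num)
    have h2 := hq.c 3 (by norm_num)
    have h3 := hq.c 1 (by norm_num)
    fun_prop
  have hper : Function.Periodic (E5 q) (2 * π) := by
    intro t
    unfold E5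
    rw [hq.per 5 (by norm_num), hq.per 3 (by norm_num), hq.per 1 (by norm_num)]
  obtain ⟨y, hy, hfy⟩ := hper.exists_mem_Ico₀ (by positivity) t
  rw [hfy]
  -- the main argument with a sign
  have main : ∀ σ : ℝ, ¬ 0 < σ * E5 q y := by
    intro σ hpos
    have hcσ : Continuous fun u => σ * E5 q u := continuous_const.mul hE
    have hev : ∀ᶠ u in 𝓝 y, 0 < σ * E5 q u :=
      (isOpen_lt continuous_const hcσ).mem_nhds hpos
    obtain ⟨δ, hδ, hball⟩ := Metric.eventually_nhds_iff.1 hev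
    -- a leaf close to the boundary
    have hev1 : ∀ᶠ c in 𝓝[>] (0:ℝ), nxt U c y < y + δ :=
      (h.tendsto_nxt y).eventually_lt_const (by linarith)
    have hev2 : ∀ᶠ c in 𝓝[>] (0:ℝ), c ∈ Ioo (0:ℝ) c₀ := Ioo_mem_nhdsGT hc₀.1
    obtain ⟨c, h1, hc⟩ := (hev1.and hev2).exists
    have hZ := Z_zero h hq hc₀ h3 hc ⟨hy.1, hy.2.le⟩
    set s := nxt U c y with hs
    have hs1 : y < s := LFam.lt_nxt (U := U) c y
    have hs2 : s < y + 2 * π := LFam.nxt_lt (U := U) c y
    have hsin : ∀ v, 0 < v → v < 2 * π → 0 < sin (v / 2) := fun v h0 h2 =>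
      sin_pos_of_pos_of_lt_pi (by linarith) (by linarith)
    have hzf := Z_formula (q := q) (hq.toPot.mono (by norm_num))
      (hsin (s - y) (by linarith) (by linarith)).ne'
    rw [show ct (s - y) = Uf U (c, y) from ct_nxt U c y, hZ, mul_zero] at hzf
    have hint : ∫ u in y..s, ker y s u * E5 q u = 0 := by linarith
    have hkc : Continuous fun u => ker y s u * (σ * E5 q u) := by
      unfold ker
      fun_prop
    have key := intervalIntegral.intervalIntegral_pos_of_pos_on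
      (f := fun u => ker y s u * (σ * E5 q u)) (hkc.intervalIntegrable y s)
      (fun u hu => by
        refine mul_pos ?_ (hball ?_)
        · unfold ker
          have a1 := hsin (u - y) (by linarith [hu.1]) (by linarith [hu.2])
          have a2 := hsin (s - u) (by linarith [hu.2]) (by linarith [hu.1])
          positivity
        · rw [Real.dist_eq, abs_of_pos (by linarith [hu.1])]
          linarith [hu.2]) hs1
    have e : ∫ u in y..s, ker y s u * (σ * E5 q u) = σ * ∫ u in y..s, ker y s u * E5 q u := by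
      rw [← intervalIntegral.integral_const_mul]
      refine intervalIntegral.integral_congr fun u _ => ?_
      ring
    rw [e, hint, mul_zero] at key
    exact lt_irrefl _ key
  have m1 := main 1
  have m2 := main (-1)
  push Not at m1 m2
  linarith

end Pool.Agent.MP_ae5b4e_an_c3
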