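import Pool.Agent.Lib.MP_ae5b4e_an_c3.Triangle

/-!
The involutions are rational, and the smoothness of `κ`.
-/

noncomputable section

namespace Pool.Agent.MP_ae5b4e_an_c3

open Real Set Filter Topology MeasureTheory
open Pool.Agent.MP_ae5b4e_an Pool.Agent.MP_ae5b4e_an_rat

variable {U : ℝ → ℝ → ℝ} {κ : ℝ → ℝ}

/-- `κ` is as smooth as the foliation. -/
theorem contDiff_κ' (h : LFam U κ)
    (hs : ContDiffOn ℝ 5 (Uf U) (Ioo 0 1 ×ˢ univ)) : ContDiff ℝ 5 κ := by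
  have h5 : (5 : WithTop ℕ∞) ≠ 0 := by norm_num
  have hsA : ∀ {q : ℝ × ℝ}, q.1 ∈ Ioo (0:ℝ) 1 → ContDiffAt ℝ 5 (Uf U) q := fun {q} hq =>
    hs.contDiffAt (isOpen_dom.mem_nhds ⟨hq, mem_univ _⟩)
  rw [contDiff_iff_contDiffAt]
  intro x
  have hc : (1/2:ℝ) ∈ Ioo (0:ℝ) 1 := ⟨by norm_num, by norm_num⟩
  obtain ⟨θ, rfl⟩ := h.nxt_surj hc x
  set φ : ℝ → ℝ := fun c => nxt U c θ with hφ
  have hφs : ContDiffAt ℝ 5 φ (1/2) := by
    have h1 : ContDiffAt ℝ 5 (fun c : ℝ => Uf U (c, θ)) (1/2) :=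
      (hsA (q := ((1/2:ℝ), θ)) hc).comp (1/2:ℝ) (contDiffAt_id.prodMk contDiffAt_const)
    have h2 : φ = fun c => θ + π - 2 * arctan (Uf U (c, θ)) := rfl
    rw [h2]
    exact contDiffAt_const.sub (contDiffAt_const.mul h1.arctan)
  have hφd := h.hasDerivAt_nxt_c hc θ
  have hd0 : -(2 * D1 U (1/2, θ) / (1 + Uf U (1/2, θ) ^ 2)) ≠ 0 := by
    have h1 := h.D1_neg hc θ
    have h2 : 0 < 1 + Uf U (1/2, θ) ^ 2 := by positivity
    have h3 : 2 * D1 U (1/2, θ) / (1 + Uf U (1/2, θ) ^ 2) < 0 :=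
      div_neg_of_neg_of_pos (by linarith) h2
    exact (by linarith : 0 < -(2 * D1 U (1/2, θ) / (1 + Uf U (1/2, θ) ^ 2))).ne'
  set e : ℝ ≃L[ℝ] ℝ := ContinuousLinearEquiv.unitsEquivAut ℝ (Units.mk0 _ hd0) with he
  have hfd : HasFDerivAt φ (e : ℝ →L[ℝ] ℝ) (1/2) := by
    rw [hasFDerivAt_iff_hasDerivAt]
    refine hφd.congr_deriv ?_
    simp [he]
  set g := hφs.localInverse hfd h5 with hg
  have hgs : ContDiffAt ℝ 5 g (φ (1/2)) := hφs.to_localInverse hfd h5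
  have hga : g (φ (1/2)) = 1/2 := hφs.localInverse_apply_image hfd h5
  have hstrict : HasStrictFDerivAt φ (e : ℝ →L[ℝ] ℝ) (1/2) :=
    hφs.hasStrictFDerivAt' hfd h5
  have hright : ∀ᶠ y in 𝓝 (φ (1/2)), φ (g y) = y := hstrict.eventually_right_inverse
  have hmem : ∀ᶠ y in 𝓝 (φ (1/2)), g y ∈ Ioo (0:ℝ) 1 := by
    have h1 : Tendsto g (𝓝 (φ (1/2))) (𝓝 (1/2)) := by
      have := hgs.continuousAt.tendsto
      rwa [hga] at this
    exact h1.eventually (isOpen_Ioo.mem_nhds hc)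
  have hform : κ =ᶠ[𝓝 (φ (1/2))] fun y => Uf U (g y, y) - Uf U (g y, θ) := by
    filter_upwards [hright, hmem] with y h1 h2
    have h3 := h.feq' h2 θ
    have h4 : nxt U (g y) θ = y := h1
    rw [h4] at h3
    linarith
  refine ContDiffAt.congr_of_eventuallyEq ?_ hform
  have k1 : ContDiffAt ℝ 5 (fun y => Uf U (g y, y)) (φ (1/2)) := by
    refine ContDiffAt.comp (g := Uf U) (f := fun y => (g y, y)) (φ (1/2)) ?_
      (hgs.prodMk contDiffAt_id)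
    refine hsA ?_
    show g (φ (1/2)) ∈ Ioo (0:ℝ) 1
    rw [hga]; exact hc
  have k2 : ContDiffAt ℝ 5 (fun y => Uf U (g y, θ)) (φ (1/2)) := by
    refine ContDiffAt.comp (g := Uf U) (f := fun y => (g y, θ)) (φ (1/2)) ?_
      (hgs.prodMk contDiffAt_const)
    refine hsA ?_
    show g (φ (1/2)) ∈ Ioo (0:ℝ) 1
    rw [hga]; exact hc
  exact k1.sub k2

/-- The involutions depend rationally on the point of the circle. -/
theorem rational_κ (h : LFam U κ) (hκ : ContDiff ℝ 5 κ) {c₀ : ℝ} (hc₀ : c₀ ∈ Ioo (0:ℝ) 1)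
    (h3 : ∀ θ, nxt U c₀ (nxt U c₀ (nxt U c₀ θ)) = θ + 2 * π) :
    ∃ A B : Polynomial ℝ, B ≠ 0 ∧
      ∀ θ, cos (θ / 2) ≠ 0 → κ θ * B.eval (tan (θ / 2)) = A.eval (tan (θ / 2)) := by
  have hq := isPot_pot h hκ
  set q : ℕ → ℝ → ℝ := fun j => iteratedDeriv j (pot κ) with hqd
  obtain ⟨A, B, C, D, E, hs⟩ := solve hq.toPot (E5_zero h hq hc₀ h3)
  set PB : Polynomial ℝ := Polynomial.C A * (1 + Polynomial.X ^ 2) ^ 2 +
    Polynomial.C B * ((1 - Polynomial.X ^ 2) * (1 + Polynomial.X ^ 2)) +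
    Polynomial.C C * (2 * Polynomial.X * (1 + Polynomial.X ^ 2)) +
    Polynomial.C D * ((1 - Polynomial.X ^ 2) ^ 2 - 4 * Polynomial.X ^ 2) +
    Polynomial.C E * (4 * Polynomial.X * (1 - Polynomial.X ^ 2)) with hPB
  set PA : Polynomial ℝ := -(Polynomial.C (-B) * (2 * Polynomial.X * (1 + Polynomial.X ^ 2)) +
    Polynomial.C C * ((1 - Polynomial.X ^ 2) * (1 + Polynomial.X ^ 2)) +
    Polynomial.C (-2 * D) * (4 * Polynomial.X * (1 - Polynomial.X ^ 2)) +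
    Polynomial.C (2 * E) * ((1 - Polynomial.X ^ 2) ^ 2 - 4 * Polynomial.X ^ 2)) with hPA
  have hcs : ∀ θ, cos (θ / 2) ≠ 0 →
      cos θ * (1 + tan (θ / 2) ^ 2) = 1 - tan (θ / 2) ^ 2 ∧
      sin θ * (1 + tan (θ / 2) ^ 2) = 2 * tan (θ / 2) := by
    intro θ hθ
    have e1 : θ = 2 * (θ / 2) := by ring
    have e2 := sin_sq_add_cos_sq (θ / 2)
    have e3 : cos θ = 2 * cos (θ / 2) ^ 2 - 1 := by
      rw [← cos_two_mul]; congr 1
    have e4 : sin θ = 2 * sin (θ / 2) * cos (θ / 2) := by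
      rw [← sin_two_mul]; congr 1
    have e5 : tan (θ / 2) * cos (θ / 2) = sin (θ / 2) := by
      rw [tan_eq_sin_div_cos]; field_simp
    have e6 : (1 + tan (θ / 2) ^ 2) * cos (θ / 2) ^ 2 = 1 := by
      linear_combination (tan (θ / 2) * cos (θ / 2) + sin (θ / 2)) * e5 + e2
    constructor
    · rw [e3]
      linear_combination 2 * e6
    · rw [e4, ← e5]
      linear_combination 2 * tan (θ / 2) * e6
  have hB : ∀ θ, cos (θ / 2) ≠ 0 → PB.eval (tan (θ / 2)) = q 0 θ * (1 + tan (θ / 2) ^ 2) ^ 2 := by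
    intro θ hθ
    obtain ⟨e1, e2⟩ := hcs θ hθ
    rw [(hs θ).1, cos_two_mul, sin_two_mul]
    simp only [hPB, Polynomial.eval_add, Polynomial.eval_mul, Polynomial.eval_C,
      Polynomial.eval_pow, Polynomial.eval_X, Polynomial.eval_one, Polynomial.eval_sub,
      Polynomial.eval_ofNat]
    set τ := tan (θ / 2)
    set Y := 1 + τ ^ 2 with hY
    have f1 : cos θ * Y ^ 2 = (1 - τ ^ 2) * Y := by linear_combination Y * e1
    have f2 : sin θ * Y ^ 2 = 2 * τ * Y := by linear_combination Y * e2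
    have f3 : (2 * cos θ ^ 2 - 1) * Y ^ 2 = (1 - τ ^ 2) ^ 2 - 4 * τ ^ 2 := by
      linear_combination 2 * (cos θ * Y + (1 - τ ^ 2)) * e1 - (Y + (1 + τ ^ 2)) * hY
    have f4 : 2 * sin θ * cos θ * Y ^ 2 = 4 * τ * (1 - τ ^ 2) := by
      linear_combination 2 * cos θ * Y * e2 + 4 * τ * e1
    linear_combination (-B) * f1 - C * f2 - D * f3 - E * f4
  have hA : ∀ θ, cos (θ / 2) ≠ 0 → PA.eval (tan (θ / 2)) = -(q 1 θ * (1 + tan (θ / 2) ^ 2) ^ 2) := by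
    intro θ hθ
    obtain ⟨e1, e2⟩ := hcs θ hθ
    rw [(hs θ).2, cos_two_mul, sin_two_mul]
    simp only [hPA, Polynomial.eval_add, Polynomial.eval_mul, Polynomial.eval_C,
      Polynomial.eval_pow, Polynomial.eval_X, Polynomial.eval_one, Polynomial.eval_sub,
      Polynomial.eval_ofNat, Polynomial.eval_neg]
    set τ := tan (θ / 2)
    set Y := 1 + τ ^ 2 with hY
    have f1 : cos θ * Y ^ 2 = (1 - τ ^ 2) * Y := by linear_combination Y * e1
    have f2 : sin θ * Y ^ 2 = 2 * τ * Y := by linear_combination Y * e2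
    have f3 : (2 * cos θ ^ 2 - 1) * Y ^ 2 = (1 - τ ^ 2) ^ 2 - 4 * τ ^ 2 := by
      linear_combination 2 * (cos θ * Y + (1 - τ ^ 2)) * e1 - (Y + (1 + τ ^ 2)) * hY
    have f4 : 2 * sin θ * cos θ * Y ^ 2 = 4 * τ * (1 - τ ^ 2) := by
      linear_combination 2 * cos θ * Y * e2 + 4 * τ * e1
    linear_combination (-B) * f2 + C * f1 - 2 * D * f4 + 2 * E * f3
  refine ⟨PA, PB, ?_, ?_⟩
  · intro h0
    have h1 := hB 0 (by simp)
    rw [h0] at h1
    simp only [zero_div, tan_zero, Polynomial.eval_zero] at h1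
    have h2 := hq.pos 0
    norm_num at h1
    linarith
  · intro θ hθ
    rw [hA θ hθ, hB θ hθ, hq.e1]
    ring

end Pool.Agent.MP_ae5b4e_an_c3
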