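import Mathlib

/-!
Two-point functions of a periodic potential `q` for the proof of `Conic3`.

`q j` is the `j`-th derivative of `q 0`; `x` stands for `cot ((s - t) / 2)`.
-/

noncomputable section

namespace Pool.Agent.MP_ae5b4e_an_c3

open Real Set Filter Topology MeasureTheory

/-- A periodic function `q 0` with its derivatives `q 1, …, q n`. -/
structure Pot (q : ℕ → ℝ → ℝ) (n : ℕ) : Prop where
  d : ∀ j < n, ∀ t, HasDerivAt (q j) (q (j + 1) t) t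
  c : ∀ j ≤ n, Continuous (q j)
  per : ∀ j ≤ n, ∀ t, q j (t + 2 * π) = q j t

/-- the shifted family -/
def sh (q : ℕ → ℝ → ℝ) : ℕ → ℝ → ℝ := fun j => q (j + 1)

theorem Pot.shift {q : ℕ → ℝ → ℝ} {n : ℕ} (h : Pot q (n + 1)) : Pot (sh q) n where
  d := fun j hj t => h.d (j + 1) (by omega) t
  c := fun j hj => h.c (j + 1) (by omega)
  per := fun j hj t => h.per (j + 1) (by omega) t

theorem Pot.mono {q : ℕ → ℝ → ℝ} {n k : ℕ} (h : Pot q n) (hk : k ≤ n) : Pot q k where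
  d := fun j hj t => h.d j (by omega) t
  c := fun j hj => h.c j (by omega)
  per := fun j hj t => h.per j (by omega) t

theorem exists_bound_periodic {f : ℝ → ℝ} (hf : Continuous f) (hp : ∀ t, f (t + 2 * π) = f t) :
    ∃ C : ℝ, 0 ≤ C ∧ ∀ t, |f t| ≤ C := by
  obtain ⟨C, hC⟩ := isCompact_Icc.exists_bound_of_continuousOn (s := Icc 0 (2 * π))
    hf.continuousOn
  have hper : Function.Periodic f (2 * π) := hp
  have hb : ∀ t, |f t| ≤ C := by
    intro t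
    obtain ⟨y, hy, hfy⟩ := hper.exists_mem_Ico₀ (by positivity) t
    rw [hfy]
    exact hC y ⟨hy.1, hy.2.le⟩
  exact ⟨C, (abs_nonneg _).trans (hb 0), hb⟩

theorem Pot.bound {q : ℕ → ℝ → ℝ} {n : ℕ} (h : Pot q n) :
    ∃ C : ℝ, 1 ≤ C ∧ ∀ j ≤ n, ∀ t, |q j t| ≤ C := by
  induction n with
  | zero =>
    obtain ⟨C, hC, hb⟩ := exists_bound_periodic (h.c 0 le_rfl) (h.per 0 le_rfl)
    refine ⟨C + 1, by linarith, fun j hj t => ?_⟩
    obtain rfl : j = 0 := by omega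
    linarith [hb t]
  | succ n ih =>
    obtain ⟨C, hC, hb⟩ := ih (h.mono (by omega))
    obtain ⟨C', hC', hb'⟩ := exists_bound_periodic (h.c (n + 1) le_rfl) (h.per (n + 1) le_rfl)
    refine ⟨C + C', by linarith, fun j hj t => ?_⟩
    rcases Nat.lt_or_ge j (n + 1) with h1 | h1
    · linarith [hb j (by omega) t]
    · obtain rfl : j = n + 1 := by omega
      linarith [hb' t]

/-- `w` -/
def w (q : ℕ → ℝ → ℝ) (x t : ℝ) : ℝ := q 0 t * (3 * x ^ 2 + 1) + 3 * q 1 t * x + q 2 t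

/-- the multiplier -/
def m (q : ℕ → ℝ → ℝ) (x t : ℝ) : ℝ := 2 * q 0 t * x + q 1 t

/-- the total derivative of `w` -/
def w1 (q : ℕ → ℝ → ℝ) (x t : ℝ) : ℝ :=
  q 1 t * (3 * x ^ 2 + 1) + 3 * q 0 t * x * (1 + x ^ 2) + 3 * q 2 t * x +
    3 / 2 * q 1 t * (1 + x ^ 2) + q 3 t

/-- the two-point function which vanishes for pencils -/
def Z (q : ℕ → ℝ → ℝ) (x t s : ℝ) : ℝ := w q x t - w q (-x) s

/-- the integrand of the leaf functional -/
def R (q : ℕ → ℝ → ℝ) (x t s : ℝ) : ℝ :=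
  2 * (1 + x ^ 2) * w q x t * (-m q (-x) s) - (1 + x ^ 2) * w q (-x) s * (-m q (-x) s) -
    2 / 3 * w q x t * w1 q x t

/-- a primitive -/
def Lam (q : ℕ → ℝ → ℝ) (x t s : ℝ) : ℝ :=
  -(1 / 3 * w q x t ^ 2) - (1 + x ^ 2) * ((q 0 t - 3 * q 0 t * x ^ 2 - 2 * q 1 t * x) * q 0 s +
    (2 * q 0 t * x + q 1 t) * q 1 s)

/-- the derivative of `Lam` for fixed `x` -/
def Ll (q : ℕ → ℝ → ℝ) (x t s : ℝ) : ℝ :=
  -(2 / 3 * w q x t * w (sh q) x t) -
    (1 + x ^ 2) * ((q 1 t - 3 * q 1 t * x ^ 2 - 2 * q 2 t * x) * q 0 s +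
      (2 * q 1 t * x + q 2 t) * q 1 s) -
    (1 + x ^ 2) * ((q 0 t - 3 * q 0 t * x ^ 2 - 2 * q 1 t * x) * q 1 s +
      (2 * q 0 t * x + q 1 t) * q 2 s)

theorem R_eq (q : ℕ → ℝ → ℝ) (x t s : ℝ) :
    R q x t s = (1 + x ^ 2) * Z q x t s * (-m q (-x) s - m q x t) + Ll q x t s := by
  simp only [R, Z, Ll, w, m, w1, sh]
  ring

/-- derivative of `w` along a curve -/
theorem hasDerivAt_w {q : ℕ → ℝ → ℝ} {n : ℕ} (hq : Pot q n) (hn : 3 ≤ n) {X S : ℝ → ℝ}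
    {X' S' u : ℝ} (hX : HasDerivAt X X' u) (hS : HasDerivAt S S' u) :
    HasDerivAt (fun u => w q (X u) (S u))
      ((6 * q 0 (S u) * X u + 3 * q 1 (S u)) * X' + w (sh q) (X u) (S u) * S') u := by
  have h0 := (hq.d 0 (by omega) (S u)).comp u hS
  have h1 := (hq.d 1 (by omega) (S u)).comp u hS
  have h2 := (hq.d 2 (by omega) (S u)).comp u hS
  have h := ((h0.mul (((hX.pow 2).const_mul 3).add_const 1)).add
    ((h1.const_mul 3).mul hX)).add h2
  refine h.congr_deriv ?_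
  simp only [w, sh, Function.comp, zero_add, Nat.reduceAdd, Pi.pow_apply]
  push_cast
  ring

theorem hasDerivAt_m {q : ℕ → ℝ → ℝ} {n : ℕ} (hq : Pot q n) (hn : 2 ≤ n) {X S : ℝ → ℝ}
    {X' S' u : ℝ} (hX : HasDerivAt X X' u) (hS : HasDerivAt S S' u) :
    HasDerivAt (fun u => m q (X u) (S u)) (2 * q 0 (S u) * X' + m (sh q) (X u) (S u) * S') u := by
  have h0 := (hq.d 0 (by omega) (S u)).comp u hS
  have h1 := (hq.d 1 (by omega) (S u)).comp u hS
  have h := ((h0.const_mul 2).mul hX).add h1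
  refine h.congr_deriv ?_
  simp only [m, sh, Function.comp, zero_add, Nat.reduceAdd]
  ring

end Pool.Agent.MP_ae5b4e_an_c3
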