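import Pool.Agent.Lib.MP_ae5b4e_an_c3.Small
import Pool.Agent.Lib.MP_ae5b4e_an_rat.Rotation

/-!
The leaf functional is monotone.
-/

noncomputable section

namespace Pool.Agent.MP_ae5b4e_an_c3

open Real Set Filter Topology MeasureTheory
open Pool.Agent.MP_ae5b4e_an_rat
open Pool.Agent.MP_ae5b4e_an_total (integral_comp_tau)

/-- differentiation under the integral sign -/
theorem hasDerivAt_int {F F' : ℝ → ℝ → ℝ}
    (hF : ∀ c ∈ Ioo (0:ℝ) 1, ∀ θ, HasDerivAt (fun c => F c θ) (F' c θ) c)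
    (hF' : ContinuousOn (fun p : ℝ × ℝ => F' p.1 p.2) (Ioo 0 1 ×ˢ univ))
    (hFc : ∀ c ∈ Ioo (0:ℝ) 1, Continuous (F c)) {c : ℝ} (hc : c ∈ Ioo (0:ℝ) 1) :
    HasDerivAt (fun c => ∫ θ in (0)..(2 * π), F c θ) (∫ θ in (0)..(2 * π), F' c θ) c := by
  set c₁ := c / 2 with hc₁
  set c₂ := (c + 1) / 2 with hc₂
  have h1 : 0 < c₁ := by rw [hc₁]; linarith [hc.1]
  have h2 : c₂ < 1 := by rw [hc₂]; linarith [hc.2]
  have hsub : Icc c₁ c₂ ×ˢ Icc 0 (2 * π) ⊆ Ioo (0:ℝ) 1 ×ˢ (univ : Set ℝ) := by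
    rintro ⟨a, b⟩ ⟨ha, -⟩
    exact ⟨⟨by linarith [ha.1], by linarith [ha.2]⟩, mem_univ _⟩
  obtain ⟨K, hK⟩ := (isCompact_Icc.prod isCompact_Icc).exists_bound_of_continuousOn
    (hF'.mono hsub)
  have hnhds : Ioo c₁ c₂ ∈ 𝓝 c := Ioo_mem_nhds (by rw [hc₁]; linarith [hc.1])
    (by rw [hc₂]; linarith [hc.2])
  have hmem : ∀ t ∈ Ioo c₁ c₂, t ∈ Ioo (0:ℝ) 1 := fun t ht =>
    ⟨by linarith [ht.1], by linarith [ht.2]⟩
  have key := intervalIntegral.hasDerivAt_integral_of_dominated_loc_of_deriv_le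
    (μ := volume) (a := 0) (b := 2 * π) (F := F) (F' := F') (x₀ := c) (s := Ioo c₁ c₂)
    (bound := fun _ => K) hnhds
    (by
      filter_upwards [hnhds] with t ht
      exact (hFc t (hmem t ht)).aestronglyMeasurable)
    ((hFc c hc).intervalIntegrable _ _)
    (by
      have : Continuous fun θ => F' c θ :=
        hF'.comp_continuous (f := fun θ => (c, θ)) (by fun_prop) fun θ => ⟨hc, mem_univ _⟩
      exact this.aestronglyMeasurable)
    (by
      refine Eventually.of_forall fun θ hθ t ht => ?_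
      rw [uIoc_of_le (by positivity)] at hθ
      exact hK (t, θ) ⟨⟨ht.1.le, ht.2.le⟩, ⟨hθ.1.le, hθ.2⟩⟩)
    intervalIntegrable_const
    (by
      refine Eventually.of_forall fun θ _ t ht => ?_
      exact hF t (hmem t ht) θ)
  exact key.2

/-- derivative of `R` along a curve on which `x = cot ((s - t) / 2)` -/
theorem hasDerivAt_R {q : ℕ → ℝ → ℝ} (hq : Pot q 6) {X S : ℝ → ℝ} {X' S' u t : ℝ}
    (hX : HasDerivAt X X' u) (hS : HasDerivAt S S' u) (hXS : X' = -((1 + X u ^ 2) / 2 * S')) :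
    HasDerivAt (fun u => R q (X u) t (S u))
      (S' * (1 + X u ^ 2) * (Z q (X u) t (S u) ^ 2 + m q (X u) t * w1 q (X u) t -
        (-m q (-X u) (S u)) * w1 q (-X u) (S u) -
        3 * (1 + X u ^ 2) * m q (X u) t * (-m q (-X u) (S u)))) u := by
  have hX2 := hX.pow 2
  have hX3 := hX.pow 3
  have hY := hX2.const_add 1
  have hw := hasDerivAt_w hq (by norm_num) hX (hasDerivAt_const u t)
  have hw' := hasDerivAt_w hq (by norm_num) hX.neg hS
  have hm' := (hasDerivAt_m hq (by norm_num) hX.neg hS).neg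
  have hw1 : HasDerivAt (fun u => w1 q (X u) t)
      (q 1 t * (6 * X u * X') + 3 * q 0 t * (X' * (1 + X u ^ 2) + X u * (2 * X u * X')) +
        3 * q 2 t * X' + 3 / 2 * q 1 t * (2 * X u * X')) u := by
    have h := (((((hX2.const_mul 3).add_const 1).const_mul (q 1 t)).add
      ((hX.const_mul (3 * q 0 t)).mul hY)).add (hX.const_mul (3 * q 2 t))).add
        (hY.const_mul (3 / 2 * q 1 t)) |>.add_const (q 3 t)
    refine (h.congr_deriv ?_).congr_of_eventuallyEq ?_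
    · simp only [Pi.pow_apply]
      push_cast
      ring
    · refine Filter.Eventually.of_forall fun v => ?_
      simp only [w1, Pi.pow_apply, Pi.add_apply, Pi.mul_apply]
  have h := (((hY.const_mul 2).mul hw).mul hm').sub ((hY.mul hw').mul hm') |>.sub
    ((hw.const_mul (2 / 3)).mul hw1)
  refine (h.congr_deriv ?_).congr_of_eventuallyEq ?_
  · rw [hXS]
    simp only [Z, w, m, w1, sh, zero_add, Nat.reduceAdd, Pi.pow_apply,
      Pi.mul_apply, Pi.neg_apply]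
    push_cast
    ring
  · refine Filter.Eventually.of_forall fun v => ?_
    simp only [R, Pi.pow_apply, Pi.mul_apply, Pi.sub_apply, Pi.neg_apply]

/-- The leaf functional. -/
def Bf (U : ℝ → ℝ → ℝ) (q : ℕ → ℝ → ℝ) (c : ℝ) : ℝ :=
  ∫ θ in (0)..(2 * π), R q (Uf U (c, θ)) θ (nxt U c θ)

/-- its derivative -/
def Gf (U : ℝ → ℝ → ℝ) (q : ℕ → ℝ → ℝ) (c θ : ℝ) : ℝ :=
  -(2 * D1 U (c, θ)) * (Z q (Uf U (c, θ)) θ (nxt U c θ) ^ 2 +
    m q (Uf U (c, θ)) θ * w1 q (Uf U (c, θ)) θ -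
    (-m q (-Uf U (c, θ)) (nxt U c θ)) * w1 q (-Uf U (c, θ)) (nxt U c θ) -
    3 * (1 + Uf U (c, θ) ^ 2) * m q (Uf U (c, θ)) θ * (-m q (-Uf U (c, θ)) (nxt U c θ)))

variable {U : ℝ → ℝ → ℝ} {κ : ℝ → ℝ} {q : ℕ → ℝ → ℝ}

theorem continuousOn_nxt (h : LFam U κ) :
    ContinuousOn (fun p : ℝ × ℝ => nxt U p.1 p.2) (Ioo 0 1 ×ˢ univ) := by
  have h1 := h.continuousOn_Uf
  have e : (fun p : ℝ × ℝ => nxt U p.1 p.2) = fun p => p.2 + π - 2 * arctan (Uf U p) := rfl
  rw [e]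
  exact (continuousOn_snd.add continuousOn_const).sub
    (continuousOn_const.mul (continuous_arctan.comp_continuousOn h1))

theorem hasDerivAt_Bf (h : LFam U κ) (hq : Pot q 6) {c : ℝ} (hc : c ∈ Ioo (0:ℝ) 1) :
    HasDerivAt (Bf U q) (∫ θ in (0)..(2 * π), Gf U q c θ) c := by
  have q0 := hq.c 0 (by norm_num)
  have q1 := hq.c 1 (by norm_num)
  have q2 := hq.c 2 (by norm_num)
  have q3 := hq.c 3 (by norm_num)
  refine hasDerivAt_int (F := fun c θ => R q (Uf U (c, θ)) θ (nxt U c θ)) (F' := Gf U q)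
    ?_ ?_ ?_ hc
  · intro c hc θ
    have hX := h.hasDerivAt_c hc θ
    have hS := h.hasDerivAt_nxt_c hc θ
    have hY : (0:ℝ) < 1 + Uf U (c, θ) ^ 2 := by positivity
    refine (hasDerivAt_R hq (t := θ) hX hS ?_).congr_deriv ?_
    · field_simp
    · unfold Gf
      field_simp
  · have h1 := h.continuousOn_Uf
    have h2 := continuousOn_nxt h
    have h3 := h.continuousOn_D1
    have hcont : Continuous (fun (v : ℝ × ℝ × ℝ × ℝ) =>
        -(2 * v.2.2.2) * (Z q v.1 v.2.1 v.2.2.1 ^ 2 + m q v.1 v.2.1 * w1 q v.1 v.2.1 -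
        (-m q (-v.1) v.2.2.1) * w1 q (-v.1) v.2.2.1 -
        3 * (1 + v.1 ^ 2) * m q v.1 v.2.1 * (-m q (-v.1) v.2.2.1))) := by
      unfold Z m w1 w
      fun_prop
    exact hcont.comp_continuousOn (h1.prodMk (continuousOn_snd.prodMk (h2.prodMk h3)))
  · intro c hc
    have h1 : Continuous fun θ => Uf U (c, θ) := LFam.continuous_slice h.continuousOn_Uf hc
    have h2 := h.continuous_nxt hc
    unfold R w m w1
    fun_prop

/-- the slope of `nxt` -/
def fs (U : ℝ → ℝ → ℝ) (c θ : ℝ) : ℝ := 1 - 2 * D2 U (c, θ) / (1 + Uf U (c, θ) ^ 2)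

/-- the defect -/
def Vf (U : ℝ → ℝ → ℝ) (q : ℕ → ℝ → ℝ) (c θ : ℝ) : ℝ :=
  m q (Uf U (c, θ)) θ * fs U c θ - (-m q (-Uf U (c, θ)) (nxt U c θ))

theorem continuous_fs (h : LFam U κ) {c : ℝ} (hc : c ∈ Ioo (0:ℝ) 1) : Continuous (fs U c) := by
  have h1 : Continuous fun θ => Uf U (c, θ) := LFam.continuous_slice h.continuousOn_Uf hc
  have h2 : Continuous fun θ => D2 U (c, θ) := LFam.continuous_slice h.continuousOn_D2 hc
  unfold fs
  exact continuous_const.sub (Continuous.div₀ (by fun_prop) (by fun_prop) fun θ => by positivity)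

/-- the potential of the field of involutions -/
structure IsPot (κ : ℝ → ℝ) (q : ℕ → ℝ → ℝ) : Prop extends Pot q 6 where
  pos : ∀ t, 0 < q 0 t
  e1 : ∀ t, q 1 t = -κ t * q 0 t
  e2 : ∀ t, q 2 t = (κ t ^ 2 - deriv κ t) * q 0 t

theorem m_vertex (hq : IsPot κ q) (x t : ℝ) : -m q (-(x - κ t)) t = m q x t := by
  unfold m
  rw [hq.e1]
  ring

theorem w1_vertex (hq : IsPot κ q) (x t : ℝ) : w1 q x t - w1 q (-(x - κ t)) t =
    3 / 2 * m q x t * ((1 + x ^ 2) + (1 + (x - κ t) ^ 2) - 2 * deriv κ t) := by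
  unfold w1 m
  rw [hq.e1, hq.e2]
  ring

/-- The derivative of the leaf functional. -/
theorem integral_Gf (h : LFam U κ) (hq : IsPot κ q) {c : ℝ} (hc : c ∈ Ioo (0:ℝ) 1) :
    ∫ θ in (0)..(2 * π), Gf U q c θ = ∫ θ in (0)..(2 * π), -(2 * D1 U (c, θ)) *
      (Z q (Uf U (c, θ)) θ (nxt U c θ) ^ 2 +
        3 / 2 * ((1 + Uf U (c, θ) ^ 2) / fs U c θ * Vf U q c θ ^ 2)) := by
  have q0 := hq.c 0 (by norm_num)
  have q1 := hq.c 1 (by norm_num)
  have q2 := hq.c 2 (by norm_num)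
  have q3 := hq.c 3 (by norm_num)
  have hκc := h.continuous_κ
  have hκc' := h.continuous_dκ
  set x : ℝ → ℝ := fun θ => Uf U (c, θ) with hx
  set p : ℝ → ℝ := fun θ => D2 U (c, θ) with hp
  set g : ℝ → ℝ := fun θ => -(2 * D1 U (c, θ)) with hg
  set τ : ℝ → ℝ := nxt U c with hτ
  have hxc : Continuous x := LFam.continuous_slice h.continuousOn_Uf hc
  have hpc : Continuous p := LFam.continuous_slice h.continuousOn_D2 hc
  have hgc : Continuous g := (continuous_const.mul (LFam.continuous_slice h.continuousOn_D1 hc)).neg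
  have hτc : Continuous τ := h.continuous_nxt hc
  have hfc : Continuous (fs U c) := continuous_fs h hc
  have hfpos : ∀ θ, 0 < fs U c θ := fun θ => (h.pos_facts hc).1 θ
  have hτd : ∀ θ, HasDerivAt τ (fs U c θ) θ := h.hasDerivAt_nxt_θ hc
  have hτ2 : τ (2 * π) = τ 0 + 2 * π := by
    have := h.nxt_per hc 0
    rwa [zero_add] at this
  have hinv : ∀ θ, g (τ θ) * fs U c θ = g θ := by
    intro θ
    have := h.eq_c hc θ
    simp only [hg, hτ, fs]
    linear_combination 2 * this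
  have hfeq : ∀ θ, x (τ θ) - κ (τ θ) = x θ := h.feq' hc
  have hpeq : ∀ θ, (p (τ θ) - deriv κ (τ θ)) * fs U c θ = p θ := h.eq_θ hc
  have hxp : ∀ θ, x (θ + 2 * π) = x θ := h.Uf_per hc
  have hpp : ∀ θ, p (θ + 2 * π) = p θ := h.D2_per hc
  have hgp : ∀ θ, g (θ + 2 * π) = g θ := fun θ => by simp only [hg, h.D1_per hc]
  -- substitution
  have sub1 : ∫ θ in (0)..(2 * π), g θ * ((-m q (-x θ) (τ θ)) * w1 q (-x θ) (τ θ)) =
      ∫ θ in (0)..(2 * π), g θ * (m q (x θ) θ * w1 q (-(x θ - κ θ)) θ) := by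
    rw [← integral_comp_tau (F := fun θ => g θ * (m q (x θ) θ * w1 q (-(x θ - κ θ)) θ))
      (T := 2 * π) hτd hfc hτ2 (by unfold m w1; fun_prop) (fun θ => by
        simp only [m, w1, hgp, hxp, h.κ_per, hq.per 0 (by norm_num), hq.per 1 (by norm_num),
          hq.per 2 (by norm_num), hq.per 3 (by norm_num)])]
    refine intervalIntegral.integral_congr fun θ _ => ?_
    rw [hfeq θ]
    have e1 := m_vertex hq (x (τ θ)) (τ θ)
    rw [hfeq θ] at e1
    rw [e1]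
    linear_combination (-(m q (x (τ θ)) (τ θ) * w1 q (-x θ) (τ θ))) * hinv θ
  have sub2 : ∫ θ in (0)..(2 * π), g θ * ((1 + x θ ^ 2) / fs U c θ * m q (-x θ) (τ θ) ^ 2) =
      ∫ θ in (0)..(2 * π), g θ * (m q (x θ) θ ^ 2 *
        ((1 + (x θ - κ θ) ^ 2) + 2 * p θ - 2 * deriv κ θ)) := by
    rw [← integral_comp_tau (F := fun θ => g θ * (m q (x θ) θ ^ 2 *
        ((1 + (x θ - κ θ) ^ 2) + 2 * p θ - 2 * deriv κ θ)))
      (T := 2 * π) hτd hfc hτ2 (by unfold m; fun_prop) (fun θ => by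
        simp only [m, hgp, hxp, hpp, h.κ_per, h.dκ_per, hq.per 0 (by norm_num),
          hq.per 1 (by norm_num)])]
    refine intervalIntegral.integral_congr fun θ _ => ?_
    rw [hfeq θ]
    have e1 := m_vertex hq (x (τ θ)) (τ θ)
    rw [hfeq θ] at e1
    rw [← e1, neg_sq]
    have f0 := (hfpos θ).ne'
    have e2 := hpeq θ
    have hY : (0:ℝ) < 1 + x θ ^ 2 := by positivity
    have e3 : (1 + x θ ^ 2) * fs U c θ = 1 + x θ ^ 2 - 2 * p θ := by
      simp only [fs, hx, hp]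
      field_simp
    have e4 : (1 + x θ ^ 2) / fs U c θ =
        1 + x θ ^ 2 + 2 * (p (τ θ) - deriv κ (τ θ)) := by
      rw [div_eq_iff f0]
      linear_combination (-2) * e2 - e3
    rw [e4]
    linear_combination (-(m q (-x θ) (τ θ) ^ 2 *
      (1 + x θ ^ 2 + 2 * (p (τ θ) - deriv κ (τ θ))))) * hinv θ
  have hmc : Continuous fun θ => m q (x θ) θ := by unfold m; fun_prop
  have hmc' : Continuous fun θ => m q (-x θ) (τ θ) := by unfold m; fun_prop
  have hwc : Continuous fun θ => w1 q (x θ) θ := by unfold w1; fun_prop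
  have hwc' : Continuous fun θ => w1 q (-x θ) (τ θ) := by unfold w1; fun_prop
  have hwc'' : Continuous fun θ => w1 q (-(x θ - κ θ)) θ := by unfold w1; fun_prop
  have hZc : Continuous fun θ => Z q (x θ) θ (τ θ) := by unfold Z w; fun_prop
  have hYf : Continuous fun θ => (1 + x θ ^ 2) / fs U c θ :=
    Continuous.div₀ (by fun_prop) hfc fun θ => (hfpos θ).ne'
  have hYf' : ∀ θ, (1 + x θ ^ 2) * fs U c θ = 1 + x θ ^ 2 - 2 * p θ := by
    intro θ
    have hY : (0:ℝ) < 1 + x θ ^ 2 := by positivity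
    simp only [fs, hx, hp]
    field_simp
  -- the difference of both sides is zero
  have i1 : IntervalIntegrable (fun θ => g θ * (Z q (x θ) θ (τ θ) ^ 2 -
      3 * (1 + x θ ^ 2) * m q (x θ) θ * (-m q (-x θ) (τ θ)) + m q (x θ) θ * w1 q (x θ) θ))
      volume 0 (2 * π) := Continuous.intervalIntegrable (by fun_prop) _ _
  have i2 : IntervalIntegrable (fun θ => g θ * ((-m q (-x θ) (τ θ)) * w1 q (-x θ) (τ θ)))
      volume 0 (2 * π) := Continuous.intervalIntegrable (by fun_prop) _ _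
  have i3 : IntervalIntegrable (fun θ => g θ * (Z q (x θ) θ (τ θ) ^ 2 -
      3 * (1 + x θ ^ 2) * m q (x θ) θ * (-m q (-x θ) (τ θ)) +
      3 / 2 * (m q (x θ) θ ^ 2 * (1 + x θ ^ 2 - 2 * p θ))))
      volume 0 (2 * π) := Continuous.intervalIntegrable (by fun_prop) _ _
  have i4 : IntervalIntegrable (fun θ => g θ * ((1 + x θ ^ 2) / fs U c θ *
      m q (-x θ) (τ θ) ^ 2)) volume 0 (2 * π) := Continuous.intervalIntegrable (by fun_prop) _ _
  have i5 : IntervalIntegrable (fun θ => g θ * (m q (x θ) θ * w1 q (-(x θ - κ θ)) θ))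
      volume 0 (2 * π) := Continuous.intervalIntegrable (by fun_prop) _ _
  have i6 : IntervalIntegrable (fun θ => g θ * (m q (x θ) θ ^ 2 *
        ((1 + (x θ - κ θ) ^ 2) + 2 * p θ - 2 * deriv κ θ)))
      volume 0 (2 * π) := Continuous.intervalIntegrable (by fun_prop) _ _
  have L1 : ∫ θ in (0)..(2 * π), Gf U q c θ =
      (∫ θ in (0)..(2 * π), g θ * (Z q (x θ) θ (τ θ) ^ 2 -
      3 * (1 + x θ ^ 2) * m q (x θ) θ * (-m q (-x θ) (τ θ)) + m q (x θ) θ * w1 q (x θ) θ)) -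
      ∫ θ in (0)..(2 * π), g θ * (m q (x θ) θ * w1 q (-(x θ - κ θ)) θ) := by
    rw [← sub1, ← intervalIntegral.integral_sub i1 i2]
    refine intervalIntegral.integral_congr fun θ _ => ?_
    simp only [Gf, hg, hx, hτ]
    ring
  have L2 : ∫ θ in (0)..(2 * π), -(2 * D1 U (c, θ)) *
      (Z q (Uf U (c, θ)) θ (nxt U c θ) ^ 2 +
        3 / 2 * ((1 + Uf U (c, θ) ^ 2) / fs U c θ * Vf U q c θ ^ 2)) =
      (∫ θ in (0)..(2 * π), g θ * (Z q (x θ) θ (τ θ) ^ 2 -
      3 * (1 + x θ ^ 2) * m q (x θ) θ * (-m q (-x θ) (τ θ)) +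
      3 / 2 * (m q (x θ) θ ^ 2 * (1 + x θ ^ 2 - 2 * p θ)))) +
      3 / 2 * ∫ θ in (0)..(2 * π), g θ * (m q (x θ) θ ^ 2 *
        ((1 + (x θ - κ θ) ^ 2) + 2 * p θ - 2 * deriv κ θ)) := by
    rw [← sub2, ← intervalIntegral.integral_const_mul,
      ← intervalIntegral.integral_add i3 (i4.const_mul _)]
    refine intervalIntegral.integral_congr fun θ _ => ?_
    simp only [Vf]
    rw [← hYf' θ]
    have f0 := (hfpos θ).ne'
    change g θ * (Z q (x θ) θ (τ θ) ^ 2 + 3 / 2 * ((1 + x θ ^ 2) / fs U c θ *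
      (m q (x θ) θ * fs U c θ - -m q (-x θ) (τ θ)) ^ 2)) = _
    field_simp
    ring
  rw [L1, L2, ← intervalIntegral.integral_sub i1 i5,
    ← intervalIntegral.integral_const_mul, ← intervalIntegral.integral_add i3 (i6.const_mul _)]
  refine intervalIntegral.integral_congr fun θ _ => ?_
  have e := w1_vertex hq (x θ) θ
  linear_combination (g θ * m q (x θ) θ) * e

end Pool.Agent.MP_ae5b4e_an_c3
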