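import Pool.Agent.Lib.MP_ae5b4e_an_c3.Defs

/-!
The two-point function `Z` near the diagonal.
-/

noncomputable section

namespace Pool.Agent.MP_ae5b4e_an_c3

open Real Set Filter Topology MeasureTheory

/-- the fifth order operator -/
def E5 (q : ℕ → ℝ → ℝ) (t : ℝ) : ℝ := q 5 t + 5 * q 3 t + 4 * q 1 t

/-- the kernel -/
def ker (t s u : ℝ) : ℝ := sin ((u - t) / 2) ^ 2 * sin ((s - u) / 2) ^ 2

theorem sin_half_sq (x : ℝ) : sin (x / 2) ^ 2 = (1 - cos x) / 2 := by
  have h := cos_two_mul (x / 2)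
  have e : 2 * (x / 2) = x := by ring
  rw [e] at h
  have h2 := sin_sq_add_cos_sq (x / 2)
  linarith

theorem ker_eq (t s u : ℝ) : ker t s u = (1 - cos (u - t) - cos (s - u) +
    cos (2 * u - t - s) / 2 + cos (s - t) / 2) / 4 := by
  unfold ker
  rw [sin_half_sq, sin_half_sq]
  have e1 : cos (2 * u - t - s) = cos (u - t) * cos (s - u) + sin (u - t) * sin (s - u) := by
    rw [← cos_sub]
    congr 1
    ring
  have e2 : cos (s - t) = cos (u - t) * cos (s - u) - sin (u - t) * sin (s - u) := by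
    rw [← cos_add]
    congr 1
    ring
  rw [e1, e2]
  ring

variable {q : ℕ → ℝ → ℝ}

/-- the integral formula -/
theorem integral_ker (hq : Pot q 5) (t s : ℝ) :
    (q 0 t - q 0 s) * (2 + cos (s - t)) + 3 / 2 * (q 1 t + q 1 s) * sin (s - t) +
      1 / 2 * (q 2 t - q 2 s) * (1 - cos (s - t)) =
      -(2 * ∫ u in t..s, ker t s u * E5 q u) := by
  set k0 : ℝ → ℝ := fun u => (1 - cos (u - t) - cos (s - u) +
    cos (2 * u - t - s) / 2 + cos (s - t) / 2) / 4 with hk0
  set k1 : ℝ → ℝ := fun u => (sin (u - t) - sin (s - u) - sin (2 * u - t - s)) / 4 with hk1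
  set k2 : ℝ → ℝ := fun u => (cos (u - t) + cos (s - u) - 2 * cos (2 * u - t - s)) / 4 with hk2
  set k3 : ℝ → ℝ := fun u => (-sin (u - t) + sin (s - u) + 4 * sin (2 * u - t - s)) / 4 with hk3
  set k4 : ℝ → ℝ := fun u => (-cos (u - t) - cos (s - u) + 8 * cos (2 * u - t - s)) / 4 with hk4
  have d1 : ∀ u, HasDerivAt (fun u : ℝ => u - t) 1 u := fun u => (hasDerivAt_id u).sub_const t
  have d2 : ∀ u, HasDerivAt (fun u : ℝ => s - u) (-1) u := fun u => by
    simpa using (hasDerivAt_id u).const_sub s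
  have d3 : ∀ u, HasDerivAt (fun u : ℝ => 2 * u - t - s) 2 u := fun u => by
    simpa using (((hasDerivAt_id u).const_mul 2).sub_const t).sub_const s
  have e0 : ∀ u, HasDerivAt k0 (k1 u) u := by
    intro u
    have := (((((d1 u).cos.const_sub 1).sub (d2 u).cos).add ((d3 u).cos.div_const 2)).add_const
      (cos (s - t) / 2)).div_const 4
    refine this.congr_deriv ?_
    simp only [hk1]
    ring
  have e1 : ∀ u, HasDerivAt k1 (k2 u) u := by
    intro u
    have := (((d1 u).sin.sub (d2 u).sin).sub (d3 u).sin).div_const 4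
    refine this.congr_deriv ?_
    simp only [hk2]
    ring
  have e2 : ∀ u, HasDerivAt k2 (k3 u) u := by
    intro u
    have := (((d1 u).cos.add (d2 u).cos).sub ((d3 u).cos.const_mul 2)).div_const 4
    refine this.congr_deriv ?_
    simp only [hk3]
    ring
  have e3 : ∀ u, HasDerivAt k3 (k4 u) u := by
    intro u
    have := (((d1 u).sin.neg.add (d2 u).sin).add ((d3 u).sin.const_mul 4)).div_const 4
    refine this.congr_deriv ?_
    simp only [hk4]
    ring
  have e4 : ∀ u, HasDerivAt k4 (-(5 * k3 u + 4 * k1 u)) u := by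
    intro u
    have := (((d1 u).cos.neg.sub (d2 u).cos).add ((d3 u).cos.const_mul 8)).div_const 4
    refine this.congr_deriv ?_
    simp only [hk3, hk1]
    ring
  set A : ℝ → ℝ := fun u => k0 u * q 4 u - k1 u * q 3 u + k2 u * q 2 u - k3 u * q 1 u +
    k4 u * q 0 u + 5 * (k0 u * q 2 u - k1 u * q 1 u + k2 u * q 0 u) + 4 * (k0 u * q 0 u) with hA
  have hAd : ∀ u ∈ uIcc t s, HasDerivAt A (ker t s u * E5 q u) u := by
    intro u _
    have g0 := hq.d 0 (by norm_num) u
    have g1 := hq.d 1 (by norm_num) u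
    have g2 := hq.d 2 (by norm_num) u
    have g3 := hq.d 3 (by norm_num) u
    have g4 := hq.d 4 (by norm_num) u
    have := ((((((e0 u).mul g4).sub ((e1 u).mul g3)).add ((e2 u).mul g2)).sub
      ((e3 u).mul g1)).add ((e4 u).mul g0)).add ((((((e0 u).mul g2).sub ((e1 u).mul g1)).add
        ((e2 u).mul g0))).const_mul 5) |>.add (((e0 u).mul g0).const_mul 4)
    refine this.congr_deriv ?_
    rw [ker_eq]
    simp only [E5, zero_add, Nat.reduceAdd]
    change _ = k0 u * _
    ring
  have hcont : Continuous fun u => ker t s u * E5 q u := by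
    unfold ker E5
    have h1 := hq.c 5 le_rfl
    have h2 := hq.c 3 (by norm_num)
    have h3 := hq.c 1 (by norm_num)
    fun_prop
  have hint := intervalIntegral.integral_eq_sub_of_hasDerivAt hAd (hcont.intervalIntegrable _ _)
  rw [hint]
  have v1 : k0 s = 0 := by
    simp only [hk0]
    have e : 2 * s - t - s = s - t := by ring
    rw [e, sub_self, cos_zero]
    ring
  have v2 : k1 s = 0 := by
    simp only [hk1]
    have e : 2 * s - t - s = s - t := by ring
    rw [e, sub_self, sin_zero]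
    ring
  have v3 : k2 s = (1 - cos (s - t)) / 4 := by
    simp only [hk2]
    have e : 2 * s - t - s = s - t := by ring
    rw [e, sub_self, cos_zero]
    ring
  have v4 : k3 s = 3 * sin (s - t) / 4 := by
    simp only [hk3]
    have e : 2 * s - t - s = s - t := by ring
    rw [e, sub_self, sin_zero]
    ring
  have v5 : k4 s = (7 * cos (s - t) - 1) / 4 := by
    simp only [hk4]
    have e : 2 * s - t - s = s - t := by ring
    rw [e, sub_self, cos_zero]
    ring
  have e' : 2 * t - t - s = -(s - t) := by ring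
  have w1' : k0 t = 0 := by
    simp only [hk0]
    rw [e', sub_self, cos_zero, cos_neg]
    ring
  have w2' : k1 t = 0 := by
    simp only [hk1]
    rw [e', sub_self, sin_zero, sin_neg]
    ring
  have w3' : k2 t = (1 - cos (s - t)) / 4 := by
    simp only [hk2]
    rw [e', sub_self, cos_zero, cos_neg]
    ring
  have w4' : k3 t = -(3 * sin (s - t)) / 4 := by
    simp only [hk3]
    rw [e', sub_self, sin_zero, sin_neg]
    ring
  have w5' : k4 t = (7 * cos (s - t) - 1) / 4 := by
    simp only [hk4]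
    rw [e', sub_self, cos_zero, cos_neg]
    ring
  simp only [hA]
  rw [v1, v2, v3, v4, v5, w1', w2', w3', w4', w5']
  ring

/-- the cotangent of the half distance -/
def ct (h : ℝ) : ℝ := cos (h / 2) / sin (h / 2)

theorem one_add_ct_sq {h : ℝ} (hs : sin (h / 2) ≠ 0) : 1 + ct h ^ 2 = (sin (h / 2) ^ 2)⁻¹ := by
  unfold ct
  have := sin_sq_add_cos_sq (h / 2)
  field_simp
  linarith

theorem Z_formula (hq : Pot q 5) {t s : ℝ} (hs : sin ((s - t) / 2) ≠ 0) :
    sin ((s - t) / 2) ^ 2 * Z q (ct (s - t)) t s = -(2 * ∫ u in t..s, ker t s u * E5 q u) := by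
  rw [← integral_ker hq]
  have h1 := sin_half_sq (s - t)
  have h2 : cos ((s - t) / 2) ^ 2 = (1 + cos (s - t)) / 2 := by
    have := sin_sq_add_cos_sq ((s - t) / 2)
    linarith
  have h3 : sin (s - t) = 2 * sin ((s - t) / 2) * cos ((s - t) / 2) := by
    rw [← sin_two_mul]
    congr 1
    ring
  rw [h3]
  have h4 : sin ((s - t) / 2) ^ 2 * Z q (ct (s - t)) t s =
      (q 0 t - q 0 s) * (3 * cos ((s - t) / 2) ^ 2 + sin ((s - t) / 2) ^ 2) +
      3 * (q 1 t + q 1 s) * (sin ((s - t) / 2) * cos ((s - t) / 2)) +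
      (q 2 t - q 2 s) * sin ((s - t) / 2) ^ 2 := by
    unfold Z w ct
    field_simp
    ring
  rw [h4, h1, h2]
  ring

theorem hasDerivAt_ct {X : ℝ → ℝ} {X' u : ℝ} (hX : HasDerivAt X X' u) (hs : sin (X u / 2) ≠ 0) :
    HasDerivAt (fun u => ct (X u)) (-((1 + ct (X u) ^ 2) / 2 * X')) u := by
  have h1 := (hX.div_const 2).cos.div (hX.div_const 2).sin hs
  refine h1.congr_deriv ?_
  rw [one_add_ct_sq hs]
  have := sin_sq_add_cos_sq (X u / 2)
  field_simp
  linear_combination (-X') * this

end Pool.Agent.MP_ae5b4e_an_c3
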