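import Pool.Agent.Lib.MP_ae5b4e_an_c3.Near

/-!
The leaf functional tends to zero near the diagonal.
-/

noncomputable section

namespace Pool.Agent.MP_ae5b4e_an_c3

open Real Set Filter Topology MeasureTheory

variable {q : ℕ → ℝ → ℝ}

theorem sin_half_ge {h : ℝ} (h0 : 0 < h) (h1 : h ≤ 1) : h / 4 ≤ sin (h / 2) := by
  have h2 := Real.mul_le_sin (x := h / 2) (by linarith) (by have := pi_gt_three; linarith)
  have h3 : 1 / 4 ≤ 1 / π := one_div_le_one_div_of_le pi_pos pi_le_four
  have h4 : 2 / π * (h / 2) = 1 / π * h := by ring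
  rw [h4] at h2
  nlinarith

theorem sin_half_pos {h : ℝ} (h0 : 0 < h) (h1 : h ≤ 1) : 0 < sin (h / 2) :=
  lt_of_lt_of_le (by linarith) (sin_half_ge h0 h1)

theorem one_add_ct_sq_le {h : ℝ} (h0 : 0 < h) (h1 : h ≤ 1) : 1 + ct h ^ 2 ≤ 16 / h ^ 2 := by
  have h2 := sin_half_ge h0 h1
  have h3 := sin_half_pos h0 h1
  rw [one_add_ct_sq h3.ne', inv_eq_one_div, div_le_div_iff₀ (by positivity) (by positivity)]
  nlinarith

theorem abs_ct_le {h : ℝ} (h0 : 0 < h) (h1 : h ≤ 1) : |ct h| ≤ 4 / h := by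
  have h2 := sin_half_ge h0 h1
  have h3 := sin_half_pos h0 h1
  unfold ct
  rw [abs_div, abs_of_pos h3, div_le_div_iff₀ h3 h0]
  have h4 := abs_cos_le_one (h / 2)
  nlinarith [abs_nonneg (cos (h / 2))]

/-- the basic bounds near the diagonal -/
structure NB (q : ℕ → ℝ → ℝ) (C : ℝ) : Prop where
  zb : ∀ t h, 0 < h → h ≤ 1 → |Z q (ct h) t (t + h)| ≤ C * h ^ 3
  mb : ∀ t h, 0 < h → h ≤ 1 → |m q (ct h) t| ≤ C / h
  db : ∀ t h, 0 < h → h ≤ 1 → |-m q (-ct h) (t + h) - m q (ct h) t| ≤ C

theorem exists_nb (hq : Pot q 5) : ∃ C, 0 ≤ C ∧ NB q C := by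
  obtain ⟨C, hC, hb⟩ := hq.bound
  refine ⟨20 * C, by linarith, ?_, ?_, ?_⟩
  · intro t h h0 h1
    have h3 := sin_half_pos h0 h1
    have hs : sin ((t + h - t) / 2) ≠ 0 := by
      rw [add_sub_cancel_left]; exact h3.ne'
    have hZ := Z_formula hq (t := t) (s := t + h) hs
    rw [add_sub_cancel_left] at hZ
    have hI : |∫ u in t..(t + h), ker t (t + h) u * E5 q u| ≤ (h / 2) ^ 4 * (10 * C) * |t + h - t| := by
      rw [← norm_eq_abs]
      refine intervalIntegral.norm_integral_le_of_norm_le_const (fun u hu => ?_)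
      rw [uIoc_of_le (by linarith)] at hu
      rw [norm_mul]
      refine mul_le_mul ?_ ?_ (norm_nonneg _) (by positivity)
      · unfold ker
        rw [norm_mul, norm_pow, norm_pow]
        have a1 : ‖sin ((u - t) / 2)‖ ≤ h / 2 := by
          refine (abs_sin_le_abs (x := (u - t) / 2)).trans ?_
          rw [abs_of_nonneg (by linarith [hu.1])]
          linarith [hu.2]
        have a2 : ‖sin ((t + h - u) / 2)‖ ≤ h / 2 := by
          refine (abs_sin_le_abs (x := (t + h - u) / 2)).trans ?_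
          rw [abs_of_nonneg (by linarith [hu.2])]
          linarith [hu.1]
        calc ‖sin ((u - t) / 2)‖ ^ 2 * ‖sin ((t + h - u) / 2)‖ ^ 2
            ≤ (h / 2) ^ 2 * (h / 2) ^ 2 := by gcongr
          _ = (h / 2) ^ 4 := by ring
      · unfold E5
        rw [norm_eq_abs]
        have b1 := hb 5 le_rfl u
        have b2 := hb 3 (by norm_num) u
        have b3 := hb 1 (by norm_num) u
        rw [abs_le] at b1 b2 b3 ⊢
        constructor <;> linarith [b1.1, b1.2, b2.1, b2.2, b3.1, b3.2]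
    rw [add_sub_cancel_left, abs_of_pos h0] at hI
    have hs2 := sin_half_ge h0 h1
    have e1 : |sin (h / 2) ^ 2 * Z q (ct h) t (t + h)| ≤ 2 * ((h / 2) ^ 4 * (10 * C) * h) := by
      rw [hZ, abs_neg, abs_mul, abs_two]
      linarith
    rw [abs_mul, abs_of_nonneg (sq_nonneg _)] at e1
    have e2 : (h / 4) ^ 2 ≤ sin (h / 2) ^ 2 := pow_le_pow_left₀ (by positivity) hs2 2
    have e3 : (h / 4) ^ 2 * |Z q (ct h) t (t + h)| ≤ 2 * ((h / 2) ^ 4 * (10 * C) * h) :=
      (mul_le_mul_of_nonneg_right e2 (abs_nonneg _)).trans e1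
    have e4 : (h / 4) ^ 2 * |Z q (ct h) t (t + h)| ≤ (h / 4) ^ 2 * (20 * C * h ^ 3) := by
      refine e3.trans_eq ?_
      ring
    exact le_of_mul_le_mul_left e4 (by positivity)
  · intro t h h0 h1
    have h2 := abs_ct_le h0 h1
    have b1 := hb 0 (by norm_num) t
    have b2 := hb 1 (by norm_num) t
    unfold m
    have e1 : |2 * q 0 t * ct h + q 1 t| ≤ 2 * C * (4 / h) + C := by
      refine (abs_add_le _ _).trans (add_le_add ?_ b2)
      rw [abs_mul, abs_mul, abs_two]
      gcongr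
    refine e1.trans ?_
    have e2 : C ≤ C / h := by
      rw [le_div_iff₀ h0]; nlinarith
    have e3 : 2 * C * (4 / h) = 8 * (C / h) := by ring
    have e4 : 20 * C / h = 20 * (C / h) := by ring
    rw [e3, e4]
    have : 0 ≤ C / h := by positivity
    linarith
  · intro t h h0 h1
    have h2 := abs_ct_le h0 h1
    have b2 := hb 1 (by norm_num) t
    have b3 := hb 1 (by norm_num) (t + h)
    have hlip : |q 0 (t + h) - q 0 t| ≤ C * h := by
      have := Convex.norm_image_sub_le_of_norm_hasDerivWithin_le (f := q 0) (f' := q 1) (C := C)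
        (s := univ) (x := t) (y := t + h)
        (fun x _ => (hq.d 0 (by norm_num) x).hasDerivWithinAt) (fun x _ => hb 1 (by norm_num) x)
        convex_univ (mem_univ _) (mem_univ _)
      simpa [abs_of_pos h0] using this
    have e : -m q (-ct h) (t + h) - m q (ct h) t =
        2 * (q 0 (t + h) - q 0 t) * ct h - (q 1 (t + h) + q 1 t) := by
      unfold m; ring
    rw [e]
    have e1 : |2 * (q 0 (t + h) - q 0 t) * ct h| ≤ 2 * (C * h) * (4 / h) := by
      rw [abs_mul, abs_mul, abs_two]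
      gcongr
    have e2 : 2 * (C * h) * (4 / h) = 8 * C := by field_simp; ring
    rw [e2] at e1
    rw [abs_le] at e1 b2 b3 ⊢
    constructor <;> linarith [e1.1, e1.2, b2.1, b2.2, b3.1, b3.2]

theorem hasDerivAt_Lam (hq : Pot q 6) (x η t : ℝ) :
    HasDerivAt (fun t => Lam q x t (t + η)) (Ll q x t (t + η)) t := by
  have hw := hasDerivAt_w hq (by norm_num) (hasDerivAt_const t x) (hasDerivAt_id t)
  have g0 := hq.d 0 (by norm_num) t
  have g1 := hq.d 1 (by norm_num) t
  have k0 := (hq.d 0 (by norm_num) (t + η)).comp_add_const t η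
  have k1 := (hq.d 1 (by norm_num) (t + η)).comp_add_const t η
  have h := ((hw.pow 2).const_mul (1 / 3)).neg.sub
    ((((g0.sub ((g0.const_mul 3).mul_const (x ^ 2))).sub ((g1.const_mul 2).mul_const x)).mul k0).add
      ((((g0.const_mul 2).mul_const x).add g1).mul k1) |>.const_mul (1 + x ^ 2))
  refine h.congr_deriv ?_
  simp only [Ll, id, zero_add, Nat.reduceAdd, Pi.add_apply, Pi.sub_apply]
  push_cast
  ring

theorem hasDerivAt_Ll (hq : Pot q 6) {t s : ℝ} (hs : sin ((s - t) / 2) ≠ 0) :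
    HasDerivAt (fun s => Ll q (ct (s - t)) t s)
      ((1 + ct (s - t) ^ 2) * (Z (sh q) (ct (s - t)) t s * m q (ct (s - t)) t +
        Z q (ct (s - t)) t s * m (sh q) (ct (s - t)) t)) s := by
  have hX : HasDerivAt (fun s => ct (s - t)) (-((1 + ct (s - t) ^ 2) / 2 * 1)) s :=
    hasDerivAt_ct ((hasDerivAt_id s).sub_const t) hs
  have hX2 := hX.pow 2
  have hw := hasDerivAt_w hq (by norm_num) hX (hasDerivAt_const s t)
  have hw' := hasDerivAt_w hq.shift (by norm_num) hX (hasDerivAt_const s t)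
  have k0 := hq.d 0 (by norm_num) s
  have k1 := hq.d 1 (by norm_num) s
  have k2 := hq.d 2 (by norm_num) s
  have hY := hX2.const_add 1
  have p1 := (((hX2.const_mul (3 * q 1 t)).const_sub (q 1 t)).sub (hX.const_mul (2 * q 2 t))).mul k0
  have p2 := ((hX.const_mul (2 * q 1 t)).add_const (q 2 t)).mul k1
  have p3 := (((hX2.const_mul (3 * q 0 t)).const_sub (q 0 t)).sub (hX.const_mul (2 * q 1 t))).mul k1
  have p4 := ((hX.const_mul (2 * q 0 t)).add_const (q 1 t)).mul k2
  have h := (((hw.const_mul (2 / 3)).mul hw').neg.sub (hY.mul (p1.add p2))).sub (hY.mul (p3.add p4))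
  refine (h.congr_deriv ?_).congr_of_eventuallyEq ?_
  · simp only [Z, w, m, sh, zero_add, Nat.reduceAdd, Pi.pow_apply, Pi.add_apply,
      Pi.mul_apply, Pi.sub_apply]
    push_cast
    ring
  · refine Filter.Eventually.of_forall fun u => ?_
    simp only [Ll, w, sh, Pi.pow_apply, Pi.add_apply, Pi.mul_apply, Pi.sub_apply, Pi.neg_apply]

/-- The leaf functional is small near the diagonal. -/
theorem R_small (hq : Pot q 6) : ∃ C, 0 ≤ C ∧ ∀ η, 0 < η → η ≤ 1 → ∀ H : ℝ → ℝ, Continuous H →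
    (∀ t, 0 < H t ∧ H t ≤ η) →
    |∫ t in (0)..(2 * π), R q (ct (H t)) t (t + H t)| ≤ C * η := by
  obtain ⟨C1, hC1, n1⟩ := exists_nb (hq.mono (by norm_num : 5 ≤ 6))
  obtain ⟨C2, hC2, n2⟩ := exists_nb hq.shift
  set C := C1 + C2 with hC
  have hC0 : 0 ≤ C := by positivity
  -- bounds with the common constant
  have z1 : ∀ t h, 0 < h → h ≤ 1 → |Z q (ct h) t (t + h)| ≤ C * h ^ 3 := fun t h h0 h1 =>
    (n1.zb t h h0 h1).trans (by gcongr; linarith)
  have z2 : ∀ t h, 0 < h → h ≤ 1 → |Z (sh q) (ct h) t (t + h)| ≤ C * h ^ 3 := fun t h h0 h1 =>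
    (n2.zb t h h0 h1).trans (by gcongr; linarith)
  have m1 : ∀ t h, 0 < h → h ≤ 1 → |m q (ct h) t| ≤ C / h := fun t h h0 h1 =>
    (n1.mb t h h0 h1).trans (by gcongr; linarith)
  have m2 : ∀ t h, 0 < h → h ≤ 1 → |m (sh q) (ct h) t| ≤ C / h := fun t h h0 h1 =>
    (n2.mb t h h0 h1).trans (by gcongr; linarith)
  have d1 : ∀ t h, 0 < h → h ≤ 1 → |-m q (-ct h) (t + h) - m q (ct h) t| ≤ C :=
    fun t h h0 h1 => (n1.db t h h0 h1).trans (by linarith)
  -- the first part
  have A1 : ∀ t h, 0 < h → h ≤ 1 →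
      |(1 + ct h ^ 2) * Z q (ct h) t (t + h) * (-m q (-ct h) (t + h) - m q (ct h) t)| ≤
        16 * C ^ 2 * h := by
    intro t h h0 h1
    rw [abs_mul, abs_mul, abs_of_pos (by positivity : 0 < 1 + ct h ^ 2)]
    calc (1 + ct h ^ 2) * |Z q (ct h) t (t + h)| * |-m q (-ct h) (t + h) - m q (ct h) t|
        ≤ 16 / h ^ 2 * (C * h ^ 3) * C := by
          gcongr
          · exact one_add_ct_sq_le h0 h1
          · exact z1 t h h0 h1
          · exact d1 t h h0 h1
      _ = 16 * C ^ 2 * h := by field_simp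
  -- the derivative of `Ll`
  have A2 : ∀ t h, 0 < h → h ≤ 1 →
      |(1 + ct h ^ 2) * (Z (sh q) (ct h) t (t + h) * m q (ct h) t +
        Z q (ct h) t (t + h) * m (sh q) (ct h) t)| ≤ 32 * C ^ 2 := by
    intro t h h0 h1
    rw [abs_mul, abs_of_pos (by positivity : 0 < 1 + ct h ^ 2)]
    calc (1 + ct h ^ 2) * |Z (sh q) (ct h) t (t + h) * m q (ct h) t +
        Z q (ct h) t (t + h) * m (sh q) (ct h) t|
        ≤ 16 / h ^ 2 * (C * h ^ 3 * (C / h) + C * h ^ 3 * (C / h)) := by
          gcongr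
          · exact one_add_ct_sq_le h0 h1
          · refine (abs_add_le _ _).trans (add_le_add ?_ ?_)
            · rw [abs_mul]
              exact mul_le_mul (z2 t h h0 h1) (m1 t h h0 h1) (abs_nonneg _) (by positivity)
            · rw [abs_mul]
              exact mul_le_mul (z1 t h h0 h1) (m2 t h h0 h1) (abs_nonneg _) (by positivity)
      _ = 32 * C ^ 2 := by field_simp; ring
  refine ⟨2 * π * (48 * C ^ 2), by positivity, fun η hη0 hη1 H hHc hH => ?_⟩
  have hsin : ∀ h, 0 < h → h ≤ 1 → sin (h / 2) ≠ 0 := fun h h0 h1 => (sin_half_pos h0 h1).ne'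
  -- Lipschitz bound
  have A3 : ∀ t, |Ll q (ct (H t)) t (t + H t) - Ll q (ct η) t (t + η)| ≤ 32 * C ^ 2 * η := by
    intro t
    obtain ⟨h0, h1⟩ := hH t
    have key := Convex.norm_image_sub_le_of_norm_hasDerivWithin_le
      (f := fun s => Ll q (ct (s - t)) t s)
      (f' := fun s => (1 + ct (s - t) ^ 2) * (Z (sh q) (ct (s - t)) t s * m q (ct (s - t)) t +
        Z q (ct (s - t)) t s * m (sh q) (ct (s - t)) t))
      (C := 32 * C ^ 2) (s := Icc (t + H t) (t + η)) (x := t + H t) (y := t + η)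
      (fun s hs => (hasDerivAt_Ll hq (hsin (s - t) (by linarith [hs.1])
        (by linarith [hs.2]))).hasDerivWithinAt)
      (fun s hs => by
        have := A2 t (s - t) (by linarith [hs.1]) (by linarith [hs.2])
        rw [add_sub_cancel] at this
        exact this)
      (convex_Icc _ _) ⟨le_rfl, by linarith⟩ ⟨by linarith, le_rfl⟩
    simp only [add_sub_cancel_left] at key
    rw [abs_sub_comm]
    refine key.trans ?_
    gcongr
    rw [norm_eq_abs, abs_le]
    constructor <;> linarith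
  have A4 : ∫ t in (0)..(2 * π), Ll q (ct η) t (t + η) = 0 := by
    have hc : Continuous fun t => Ll q (ct η) t (t + η) := by
      have h0 := hq.c 0 (by norm_num)
      have h1 := hq.c 1 (by norm_num)
      have h2 := hq.c 2 (by norm_num)
      have h3 := hq.c 3 (by norm_num)
      unfold Ll w sh
      fun_prop
    rw [intervalIntegral.integral_eq_sub_of_hasDerivAt
      (fun t _ => hasDerivAt_Lam hq (ct η) η t) (hc.intervalIntegrable _ _)]
    have p0 := hq.per 0 (by norm_num)
    have p1 := hq.per 1 (by norm_num)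
    have p2 := hq.per 2 (by norm_num)
    have e1 := p0 0
    have e2 := p1 0
    have e3 := p2 0
    have e4 := p0 η
    have e5 := p1 η
    rw [zero_add] at e1 e2 e3
    have e6 : 2 * π + η = η + 2 * π := by ring
    unfold Lam w
    rw [e6, e1, e2, e3, e4, e5, zero_add]
    ring
  have hc1 : Continuous fun t => R q (ct (H t)) t (t + H t) := by
    have h0 := hq.c 0 (by norm_num)
    have h1 := hq.c 1 (by norm_num)
    have h2 := hq.c 2 (by norm_num)
    have h3 := hq.c 3 (by norm_num)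
    have hct : Continuous fun t => ct (H t) := by
      unfold ct
      exact Continuous.div₀ (by fun_prop) (by fun_prop)
        fun t => hsin _ (hH t).1 ((hH t).2.trans hη1)
    unfold R w m w1
    fun_prop
  have hc2 : Continuous fun t => Ll q (ct η) t (t + η) := by
    have h0 := hq.c 0 (by norm_num)
    have h1 := hq.c 1 (by norm_num)
    have h2 := hq.c 2 (by norm_num)
    have h3 := hq.c 3 (by norm_num)
    unfold Ll w sh
    fun_prop
  have A5 : ∫ t in (0)..(2 * π), R q (ct (H t)) t (t + H t) =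
      ∫ t in (0)..(2 * π), (R q (ct (H t)) t (t + H t) - Ll q (ct η) t (t + η)) := by
    rw [intervalIntegral.integral_sub (hc1.intervalIntegrable _ _)
      (hc2.intervalIntegrable _ _), A4, sub_zero]
  rw [A5]
  have A6 := intervalIntegral.norm_integral_le_of_norm_le_const (a := 0) (b := 2 * π)
    (f := fun t => R q (ct (H t)) t (t + H t) - Ll q (ct η) t (t + η)) (C := 48 * C ^ 2 * η)
    (fun t _ => by
      have b1 := A1 t (H t) (hH t).1 ((hH t).2.trans hη1)
      have b2 := A3 t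
      have e : R q (ct (H t)) t (t + H t) - Ll q (ct η) t (t + η) =
          (1 + ct (H t) ^ 2) * Z q (ct (H t)) t (t + H t) *
            (-m q (-ct (H t)) (t + H t) - m q (ct (H t)) t) +
          (Ll q (ct (H t)) t (t + H t) - Ll q (ct η) t (t + η)) := by
        rw [R_eq]; ring
      rw [e, norm_eq_abs]
      refine (abs_add_le _ _).trans ?_
      have b3 : 16 * C ^ 2 * H t ≤ 16 * C ^ 2 * η := by
        have := (hH t).2
        gcongr
      linarith)
  rw [norm_eq_abs] at A6
  refine A6.trans_eq ?_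
  rw [sub_zero, abs_of_pos (by positivity : (0:ℝ) < 2 * π)]
  ring

end Pool.Agent.MP_ae5b4e_an_c3
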