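import Pool.Agent.Lib.MP_ae5b4e_an_c3.Leaf

/-!
The leaf functional of a leaf of triangles is nonpositive.
-/

noncomputable section

namespace Pool.Agent.MP_ae5b4e_an_c3

open Real Set Filter Topology MeasureTheory
open Pool.Agent.MP_ae5b4e_an_rat
open Pool.Agent.MP_ae5b4e_an_total (integral_comp_tau)

/-- derivative of `Lam` along a leaf -/
theorem hasDerivAt_Lam_leaf {q : ℕ → ℝ → ℝ} (hq : Pot q 6) {X S : ℝ → ℝ} {X' f t : ℝ}
    (hX : HasDerivAt X X' t) (hS : HasDerivAt S f t) (hXS : X' = (1 + X t ^ 2) / 2 * (1 - f)) :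
    HasDerivAt (fun t => Lam q (X t) t (S t))
      (R q (X t) t (S t) - (1 + X t ^ 2) * Z q (X t) t (S t) *
        ((-m q (-X t) (S t)) - m q (X t) t * f)) t := by
  have hX2 := hX.pow 2
  have hY := hX2.const_add 1
  have hw := hasDerivAt_w hq (by norm_num) hX (hasDerivAt_id t)
  have g0 := hq.d 0 (by norm_num) t
  have g1 := hq.d 1 (by norm_num) t
  have k0 := (hq.d 0 (by norm_num) (S t)).comp t hS
  have k1 := (hq.d 1 (by norm_num) (S t)).comp t hS
  have p1 := ((g0.sub ((g0.const_mul 3).mul hX2)).sub ((g1.const_mul 2).mul hX)).mul k0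
  have p2 := (((g0.const_mul 2).mul hX).add g1).mul k1
  have h := ((hw.pow 2).const_mul (1 / 3)).neg.sub (hY.mul (p1.add p2))
  refine (h.congr_deriv ?_).congr_of_eventuallyEq ?_
  · rw [hXS]
    simp only [R, Z, w, m, w1, sh, id, zero_add, Nat.reduceAdd, Pi.pow_apply, Pi.add_apply,
      Pi.mul_apply, Pi.sub_apply, Function.comp]
    push_cast
    ring
  · refine Filter.Eventually.of_forall fun v => ?_
    simp only [Lam, id, Pi.pow_apply, Pi.add_apply, Pi.mul_apply, Pi.sub_apply, Pi.neg_apply,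
      Function.comp]

/-- the algebra of a triangle -/
theorem tri_alg {s0 s1 s2 Q0 Q1 Q2 a b c w0 w1 w2 : ℝ} (h0 : 0 < s0) (h1 : 0 < s1) (h2 : 0 < s2)
    (ha : 0 < a) (hb : 0 < b) (hc : a * b * c = 1)
    (e0 : w0 = Q0 / 2 * (s0 ^ 2 + s0 * s1 * a + s2 * s0 / c))
    (e1 : w1 = Q1 / 2 * (s1 ^ 2 + s1 * s2 * b + s0 * s1 / a))
    (e2 : w2 = Q2 / 2 * (s2 ^ 2 + s2 * s0 * c + s1 * s2 / b)) :
    s0 * s1 * (w0 - w1) * (Q1 * s1 - Q0 * s0 * a) +
      s1 * s2 * (w1 - w2) * (Q2 * s2 - Q1 * s1 * b) * a +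
      s2 * s0 * (w2 - w0) * (Q0 * s0 - Q2 * s2 * c) * (a * b) ≤ 0 := by
  have hc' : c = 1 / (a * b) := by field_simp; linarith
  subst hc'
  set T := s0 + s1 * a + s2 * (a * b) with hT
  have hTp : 0 < T := by positivity
  have f0 : w0 = Q0 * s0 * T / 2 := by rw [e0, hT]; field_simp
  have f1 : w1 = Q1 * s1 * T / (2 * a) := by rw [e1, hT]; field_simp; ring
  have f2 : w2 = Q2 * s2 * T / (2 * (a * b)) := by rw [e2, hT]; field_simp; ring
  have key : s0 * s1 * (w0 - w1) * (Q1 * s1 - Q0 * s0 * a) +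
      s1 * s2 * (w1 - w2) * (Q2 * s2 - Q1 * s1 * b) * a +
      s2 * s0 * (w2 - w0) * (Q0 * s0 - Q2 * s2 * (1 / (a * b))) * (a * b) =
      -(T / 2 * (s0 * s1 * (Q0 * s0 * a - Q1 * s1) ^ 2 / a +
        s1 * s2 * (Q1 * s1 * b - Q2 * s2) ^ 2 / b +
        s2 * s0 * (Q2 * s2 - Q0 * s0 * (a * b)) ^ 2 / (a * b))) := by
    rw [f0, f1, f2]
    field_simp
    ring
  rw [key]
  have : 0 ≤ T / 2 * (s0 * s1 * (Q0 * s0 * a - Q1 * s1) ^ 2 / a +
        s1 * s2 * (Q1 * s1 * b - Q2 * s2) ^ 2 / b +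
        s2 * s0 * (Q2 * s2 - Q0 * s0 * (a * b)) ^ 2 / (a * b)) := by positivity
  linarith

theorem w_alg {Q x y z f g D E K : ℝ} (hg : g ≠ 0) (hY : (1 + x ^ 2) * f = 1 + x ^ 2 - 2 * D)
    (hY' : (1 + y ^ 2) * g = 1 + y ^ 2 - 2 * E) (hk : (D - K) * g = E)
    (hx : x * y + y * z + z * x = 1) :
    Q * (3 * x ^ 2 + 1) + 3 * (-(x - y) * Q) * x + ((x - y) ^ 2 - K) * Q =
      Q / 2 * ((y + x) ^ 2 + (y + x) * (x + z) * f + (z + y) * (y + x) / g) := by
  have a2 : (1 + y ^ 2) / g = 1 + y ^ 2 + 2 * (D - K) := by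
    rw [div_eq_iff hg]; linear_combination (-1) * hY' - 2 * hk
  have a3 : (z + y) * (y + x) = 1 + y ^ 2 := by linear_combination hx
  have a4 : (y + x) * (x + z) = 1 + x ^ 2 := by linear_combination hx
  rw [a3, a4, a2, hY]
  ring

theorem arctan_sum {x y z : ℝ} (h : arctan x + arctan y + arctan z = π / 2) :
    x * y + y * z + z * x = 1 ∧ 0 < x + y := by
  have cx := cos_arctan_pos x
  have cy := cos_arctan_pos y
  have cz := cos_arctan_pos z
  have tx : x = sin (arctan x) / cos (arctan x) := by rw [← tan_eq_sin_div_cos, tan_arctan]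
  have ty : y = sin (arctan y) / cos (arctan y) := by rw [← tan_eq_sin_div_cos, tan_arctan]
  have tz : z = sin (arctan z) / cos (arctan z) := by rw [← tan_eq_sin_div_cos, tan_arctan]
  set A := arctan x with hA
  set B := arctan y with hB
  set D := arctan z with hD
  have h1 : cos (A + B + D) = 0 := by rw [h, cos_pi_div_two]
  rw [cos_add, cos_add, sin_add] at h1
  constructor
  · rw [tx, ty, tz]
    field_simp
    linear_combination (-1 : ℝ) * h1
  · have h2 : 0 < sin (A + B) := by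
      apply sin_pos_of_pos_of_lt_pi
      · have := arctan_lt_pi_div_two z
        rw [← hD] at this
        linarith
      · have := neg_pi_div_two_lt_arctan z
        rw [← hD] at this
        linarith
    rw [sin_add] at h2
    have e : x + y = (sin A * cos B + cos A * sin B) / (cos A * cos B) := by
      rw [tx, ty]
      field_simp
    rw [e]
    positivity

variable {U : ℝ → ℝ → ℝ} {κ : ℝ → ℝ} {q : ℕ → ℝ → ℝ}

theorem w_vertex (hq : IsPot κ q) (x t : ℝ) : w q (-(x - κ t)) t = w q x t := by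
  unfold w
  rw [hq.e1]
  ring

/-- The integrand in the form used for triangles. -/
def bf (U : ℝ → ℝ → ℝ) (q : ℕ → ℝ → ℝ) (c θ : ℝ) : ℝ :=
  (1 + Uf U (c, θ) ^ 2) * Z q (Uf U (c, θ)) θ (nxt U c θ) *
    ((-m q (-Uf U (c, θ)) (nxt U c θ)) - m q (Uf U (c, θ)) θ * fs U c θ)

theorem Bf_eq (h : LFam U κ) (hq : Pot q 6) {c : ℝ} (hc : c ∈ Ioo (0:ℝ) 1) :
    Bf U q c = ∫ θ in (0)..(2 * π), bf U q c θ := by
  have q0 := hq.c 0 (by norm_num)
  have q1 := hq.c 1 (by norm_num)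
  have q2 := hq.c 2 (by norm_num)
  have q3 := hq.c 3 (by norm_num)
  have hxc : Continuous fun θ => Uf U (c, θ) := LFam.continuous_slice h.continuousOn_Uf hc
  have hτc : Continuous (nxt U c) := h.continuous_nxt hc
  have hfc : Continuous (fs U c) := continuous_fs h hc
  have c1 : Continuous fun θ => R q (Uf U (c, θ)) θ (nxt U c θ) := by
    unfold R w m w1; fun_prop
  have c2 : Continuous fun θ => bf U q c θ := by
    unfold bf Z w m; fun_prop
  have hd : ∀ θ ∈ uIcc 0 (2 * π), HasDerivAt (fun t => Lam q (Uf U (c, t)) t (nxt U c t))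
      (R q (Uf U (c, θ)) θ (nxt U c θ) - bf U q c θ) θ := by
    intro θ _
    refine hasDerivAt_Lam_leaf hq (h.hasDerivAt_θ hc θ) (h.hasDerivAt_nxt_θ hc θ) ?_
    have hY : (0:ℝ) < 1 + Uf U (c, θ) ^ 2 := by positivity
    have hY' : (1 + Uf U (c, θ) ^ 2) * (2 * D2 U (c, θ) / (1 + Uf U (c, θ) ^ 2)) =
        2 * D2 U (c, θ) := by field_simp
    unfold fs
    linear_combination (-1 / 2) * hY'
  have hint := intervalIntegral.integral_eq_sub_of_hasDerivAt hd
    ((c1.sub c2).intervalIntegrable _ _)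
  rw [intervalIntegral.integral_sub (c1.intervalIntegrable _ _) (c2.intervalIntegrable _ _)] at hint
  have e1 : Uf U (c, 2 * π) = Uf U (c, 0) := by
    have := h.Uf_per hc 0
    rwa [zero_add] at this
  have e2 : nxt U c (2 * π) = nxt U c 0 + 2 * π := by
    have := h.nxt_per hc 0
    rwa [zero_add] at this
  have p0 := hq.per 0 (by norm_num)
  have p1 := hq.per 1 (by norm_num)
  have p2 := hq.per 2 (by norm_num)
  have p0' := p0 0
  have p1' := p1 0
  have p2' := p2 0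
  rw [zero_add] at p0' p1' p2'
  have e3 : Lam q (Uf U (c, 2 * π)) (2 * π) (nxt U c (2 * π)) =
      Lam q (Uf U (c, 0)) 0 (nxt U c 0) := by
    unfold Lam w
    rw [e1, e2, p0, p1, p0', p1', p2']
  rw [e3, sub_self] at hint
  unfold Bf
  linarith

/-- The leaf functional of a leaf of triangles is nonpositive. -/
theorem Bf_nonpos (h : LFam U κ) (hq : IsPot κ q) {c : ℝ} (hc : c ∈ Ioo (0:ℝ) 1)
    (h3 : ∀ θ, nxt U c (nxt U c (nxt U c θ)) = θ + 2 * π) : Bf U q c ≤ 0 := by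
  rw [Bf_eq h hq.toPot hc]
  have q0 := hq.c 0 (by norm_num)
  have q1 := hq.c 1 (by norm_num)
  have q2 := hq.c 2 (by norm_num)
  set x : ℝ → ℝ := fun θ => Uf U (c, θ) with hx
  set τ : ℝ → ℝ := nxt U c with hτ
  set f : ℝ → ℝ := fs U c with hf
  have hxc : Continuous x := LFam.continuous_slice h.continuousOn_Uf hc
  have hτc : Continuous τ := h.continuous_nxt hc
  have hfc : Continuous f := continuous_fs h hc
  have hfpos : ∀ θ, 0 < f θ := fun θ => (h.pos_facts hc).1 θ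
  have hτd : ∀ θ, HasDerivAt τ (f θ) θ := h.hasDerivAt_nxt_θ hc
  have hτs : ∀ θ, τ (θ + 2 * π) = τ θ + 2 * π := h.nxt_per hc
  have hτ2 : τ (2 * π) = τ 0 + 2 * π := by
    have := hτs 0
    rwa [zero_add] at this
  have hxp : ∀ θ, x (θ + 2 * π) = x θ := h.Uf_per hc
  have hpp : ∀ θ, D2 U (c, θ + 2 * π) = D2 U (c, θ) := h.D2_per hc
  have hfp : ∀ θ, f (θ + 2 * π) = f θ := fun θ => by
    simp only [hf, fs, hpp, h.Uf_per hc]
  have hxc' : Continuous fun θ => Uf U (c, θ) := hxc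
  have hτc' : Continuous (nxt U c) := hτc
  have hfc' : Continuous (fs U c) := hfc
  have hbc : Continuous (bf U q c) := by
    unfold bf Z w m; fun_prop
  have hbp : ∀ θ, bf U q c (θ + 2 * π) = bf U q c θ := by
    intro θ
    have hx' := hxp θ
    have hf' := hfp θ
    have hτ' := hτs θ
    simp only [hx, hf, hτ] at hx' hf' hτ'
    unfold bf Z w m
    rw [hx', hf', hτ', hq.per 0 (by norm_num), hq.per 1 (by norm_num), hq.per 2 (by norm_num),
      hq.per 0 (by norm_num), hq.per 1 (by norm_num), hq.per 2 (by norm_num)]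
  have s1 : ∫ θ in (0)..(2 * π), bf U q c (τ θ) * f θ = ∫ θ in (0)..(2 * π), bf U q c θ :=
    integral_comp_tau hτd hfc hτ2 hbc hbp
  have s2 : ∫ θ in (0)..(2 * π), (bf U q c (τ (τ θ)) * f (τ θ)) * f θ =
      ∫ θ in (0)..(2 * π), bf U q c θ := by
    rw [← s1]
    exact integral_comp_tau (F := fun θ => bf U q c (τ θ) * f θ) hτd hfc hτ2 (by fun_prop)
      (fun θ => by simp only [hτs, hbp, hfp])
  have hsum : 3 * ∫ θ in (0)..(2 * π), bf U q c θ = ∫ θ in (0)..(2 * π),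
      (bf U q c θ + bf U q c (τ θ) * f θ + (bf U q c (τ (τ θ)) * f (τ θ)) * f θ) := by
    rw [intervalIntegral.integral_add (Continuous.intervalIntegrable (by fun_prop) _ _)
      (Continuous.intervalIntegrable (by fun_prop) _ _),
      intervalIntegral.integral_add (Continuous.intervalIntegrable (by fun_prop) _ _)
      (Continuous.intervalIntegrable (by fun_prop) _ _), s1, s2]
    ring
  have hptw : ∀ θ, bf U q c θ + bf U q c (τ θ) * f θ +
      (bf U q c (τ (τ θ)) * f (τ θ)) * f θ ≤ 0 := by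
    intro θ
    -- the derivative of the third iterate
    have hfff : f θ * f (τ θ) * f (τ (τ θ)) = 1 := by
      have d1 := ((hτd (τ (τ θ))).comp θ ((hτd (τ θ)).comp θ (hτd θ)))
      have d2 : HasDerivAt (fun θ : ℝ => θ + 2 * π) 1 θ := (hasDerivAt_id θ).add_const _
      have d3 := d1.unique (d2.congr_of_eventuallyEq (Eventually.of_forall fun t => h3 t))
      linarith
    have g1 : x (τ θ) - κ (τ θ) = x θ := h.feq' hc θ
    have g2 : x (τ (τ θ)) - κ (τ (τ θ)) = x (τ θ) := h.feq' hc (τ θ)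
    have g3 : x θ - κ θ = x (τ (τ θ)) := by
      have := h.feq' hc (τ (τ θ))
      simp only [← hτ] at this
      rw [h3 θ, h.κ_per, h.Uf_per hc] at this
      exact this
    have k1 : (D2 U (c, τ θ) - deriv κ (τ θ)) * f θ = D2 U (c, θ) := h.eq_θ hc θ
    have k2 : (D2 U (c, τ (τ θ)) - deriv κ (τ (τ θ))) * f (τ θ) = D2 U (c, τ θ) :=
      h.eq_θ hc (τ θ)
    have k3 : (D2 U (c, θ) - deriv κ θ) * f (τ (τ θ)) = D2 U (c, τ (τ θ)) := by
      have := h.eq_θ hc (τ (τ θ))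
      simp only [← hτ] at this
      rw [h3 θ, h.dκ_per, hpp] at this
      exact this
    have hY : ∀ t, (1 + x t ^ 2) * f t = 1 + x t ^ 2 - 2 * D2 U (c, t) := by
      intro t
      have hY : (0:ℝ) < 1 + x t ^ 2 := by positivity
      simp only [hf, fs, hx]
      field_simp
    have harc : arctan (x θ) + arctan (x (τ θ)) + arctan (x (τ (τ θ))) = π / 2 := by
      have e0 := h3 θ
      have u1 : τ θ = θ + π - 2 * arctan (x θ) := rfl
      have u2 : τ (τ θ) = τ θ + π - 2 * arctan (x (τ θ)) := rfl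
      have u3 : nxt U c (τ (τ θ)) = τ (τ θ) + π - 2 * arctan (x (τ (τ θ))) := rfl
      have e1 : nxt U c (τ (τ θ)) = θ + 2 * π := e0
      linarith
    obtain ⟨xx, p01⟩ := arctan_sum harc
    obtain ⟨-, p12⟩ := arctan_sum (x := x (τ θ)) (y := x (τ (τ θ))) (z := x θ) (by linarith)
    obtain ⟨-, p20⟩ := arctan_sum (x := x (τ (τ θ))) (y := x θ) (z := x (τ θ)) (by linarith)
    have f0 := hfpos θ
    have f1 := hfpos (τ θ)
    have f2 := hfpos (τ (τ θ))
    have Y0 := hY θ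
    have Y1 := hY (τ θ)
    have Y2 := hY (τ (τ θ))
    -- names
    have m1 := m_vertex hq (x (τ θ)) (τ θ)
    have m2 := m_vertex hq (x (τ (τ θ))) (τ (τ θ))
    have m0 := m_vertex hq (x θ) θ
    have v1 := w_vertex hq (x (τ θ)) (τ θ)
    have v2 := w_vertex hq (x (τ (τ θ))) (τ (τ θ))
    have v0 := w_vertex hq (x θ) θ
    rw [g1] at m1 v1
    rw [g2] at m2 v2
    rw [g3] at m0 v0
    have M0 : m q (x θ) θ = q 0 θ * (x (τ (τ θ)) + x θ) := by
      unfold m; rw [hq.e1]; rw [← g3]; ring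
    have M1 : m q (x (τ θ)) (τ θ) = q 0 (τ θ) * (x θ + x (τ θ)) := by
      unfold m; rw [hq.e1]; linear_combination (q 0 (τ θ)) * g1
    have M2 : m q (x (τ (τ θ))) (τ (τ θ)) = q 0 (τ (τ θ)) * (x (τ θ) + x (τ (τ θ))) := by
      unfold m; rw [hq.e1]; linear_combination (q 0 (τ (τ θ))) * g2
    have b0 : bf U q c θ = (1 + x θ ^ 2) * (w q (x θ) θ - w q (x (τ θ)) (τ θ)) *
        (m q (x (τ θ)) (τ θ) - m q (x θ) θ * f θ) := by
      rw [← m1, ← v1]; rfl
    have b1 : bf U q c (τ θ) = (1 + x (τ θ) ^ 2) *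
        (w q (x (τ θ)) (τ θ) - w q (x (τ (τ θ))) (τ (τ θ))) *
        (m q (x (τ (τ θ))) (τ (τ θ)) - m q (x (τ θ)) (τ θ) * f (τ θ)) := by
      rw [← m2, ← v2]; rfl
    have b2 : bf U q c (τ (τ θ)) = (1 + x (τ (τ θ)) ^ 2) *
        (w q (x (τ (τ θ))) (τ (τ θ)) - w q (x θ) θ) *
        (m q (x θ) θ - m q (x (τ (τ θ))) (τ (τ θ)) * f (τ (τ θ))) := by
      rw [← m0, ← v0]
      have e1 : nxt U c (τ (τ θ)) = θ + 2 * π := h3 θ
      have e2 : m q (-x (τ (τ θ))) (nxt U c (τ (τ θ))) = m q (-x (τ (τ θ))) θ := by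
        rw [e1]; unfold m; rw [hq.per 0 (by norm_num), hq.per 1 (by norm_num)]
      have e3 : w q (-x (τ (τ θ))) (nxt U c (τ (τ θ))) = w q (-x (τ (τ θ))) θ := by
        rw [e1]; unfold w
        rw [hq.per 0 (by norm_num), hq.per 1 (by norm_num), hq.per 2 (by norm_num)]
      rw [← e2, ← e3]; rfl
    have W0 : w q (x θ) θ = q 0 θ / 2 * ((x (τ (τ θ)) + x θ) ^ 2 +
        (x (τ (τ θ)) + x θ) * (x θ + x (τ θ)) * f θ +
        (x (τ θ) + x (τ (τ θ))) * (x (τ (τ θ)) + x θ) / f (τ (τ θ))) := by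
      rw [← w_alg f2.ne' Y0 Y2 k3 (by linarith)]
      unfold w
      rw [hq.e1, hq.e2, ← g3]
      ring
    have W1 : w q (x (τ θ)) (τ θ) = q 0 (τ θ) / 2 * ((x θ + x (τ θ)) ^ 2 +
        (x θ + x (τ θ)) * (x (τ θ) + x (τ (τ θ))) * f (τ θ) +
        (x (τ (τ θ)) + x θ) * (x θ + x (τ θ)) / f θ) := by
      rw [← w_alg f0.ne' Y1 Y0 k1 (by linarith)]
      unfold w
      rw [hq.e1, hq.e2, ← g1]
      ring
    have W2 : w q (x (τ (τ θ))) (τ (τ θ)) = q 0 (τ (τ θ)) / 2 * ((x (τ θ) + x (τ (τ θ))) ^ 2 +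
        (x (τ θ) + x (τ (τ θ))) * (x (τ (τ θ)) + x θ) * f (τ (τ θ)) +
        (x θ + x (τ θ)) * (x (τ θ) + x (τ (τ θ))) / f (τ θ)) := by
      rw [← w_alg f1.ne' Y2 Y1 k2 (by linarith)]
      unfold w
      rw [hq.e1, hq.e2, ← g2]
      ring
    have alg := tri_alg (by linarith : 0 < x (τ (τ θ)) + x θ) p01 p12 f0 f1 hfff W0 W1 W2
    have a0 : (x (τ (τ θ)) + x θ) * (x θ + x (τ θ)) = 1 + x θ ^ 2 := by
      linear_combination xx
    have a1 : (x θ + x (τ θ)) * (x (τ θ) + x (τ (τ θ))) = 1 + x (τ θ) ^ 2 := by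
      linear_combination xx
    have a2 : (x (τ θ) + x (τ (τ θ))) * (x (τ (τ θ)) + x θ) = 1 + x (τ (τ θ)) ^ 2 := by
      linear_combination xx
    rw [a0, a1, a2] at alg
    rw [b0, b1, b2, M0, M1, M2]
    refine le_of_eq_of_le ?_ alg
    ring
  have h4 : ∫ θ in (0)..(2 * π), (bf U q c θ + bf U q c (τ θ) * f θ +
      (bf U q c (τ (τ θ)) * f (τ θ)) * f θ) ≤ 0 := by
    have := intervalIntegral.integral_nonneg (μ := volume) (a := 0) (b := 2 * π)
      (f := fun θ => -(bf U q c θ + bf U q c (τ θ) * f θ +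
        (bf U q c (τ (τ θ)) * f (τ θ)) * f θ)) (by positivity)
      (fun θ _ => by linarith [hptw θ])
    rw [intervalIntegral.integral_neg] at this
    linarith
  linarith

end Pool.Agent.MP_ae5b4e_an_c3
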