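import Pool.Agent.Lib.MP_ae5b4e_an_c3.Potential
import Pool.Agent.Lib.MP_ae5b4e_an_rat.Pencil

/-!
Triangles inscribed in a leaf and circumscribed about the circle.
-/

noncomputable section

namespace Pool.Agent.MP_ae5b4e_an_c3

open Real Set Filter Topology MeasureTheory
open Pool.Agent.MP_ae5b4e_an Pool.Agent.MP_ae5b4e_an_rat

/-- the tangents through a point -/
theorem tangent_angles {a s α : ℝ}
    (h : (tangentPoint a s).1 * cos α + (tangentPoint a s).2 * sin α = 1) :
    (α : Real.Angle) = (a : ℝ) ∨ (α : Real.Angle) = ((a + 2 * arctan s : ℝ) : Real.Angle) := by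
  have e1 : cos (α - a) + s * sin (α - a) = 1 := by
    rw [cos_sub, sin_sub]
    simp only [tangentPoint] at h
    linear_combination h
  set φ := (α - a) / 2 with hφ
  have e2 : α - a = 2 * φ := by rw [hφ]; ring
  rw [e2, cos_two_mul, sin_two_mul] at e1
  have e3 := sin_sq_add_cos_sq φ
  have e4 : sin φ * (sin φ - s * cos φ) = 0 := by linear_combination (-1 / 2) * e1 + e3
  rcases mul_eq_zero.1 e4 with h1 | h1
  · left
    obtain ⟨n, hn⟩ := sin_eq_zero_iff.1 h1
    rw [Real.Angle.angle_eq_iff_two_pi_dvd_sub]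
    exact ⟨n, by rw [e2, ← hn]; ring⟩
  · right
    have h2 : sin (φ - arctan s) = 0 := by
      rw [sin_sub]
      have h3 : sin (arctan s) = s * cos (arctan s) := by
        have h4 := tan_arctan s
        rw [tan_eq_sin_div_cos, div_eq_iff (cos_arctan_pos s).ne'] at h4
        exact h4
      rw [h3]
      linear_combination (cos (arctan s)) * h1
    obtain ⟨n, hn⟩ := sin_eq_zero_iff.1 h2
    rw [Real.Angle.angle_eq_iff_two_pi_dvd_sub]
    exact ⟨n, by linear_combination e2 - 2 * hn⟩

variable {U : ℝ → ℝ → ℝ} {κ : ℝ → ℝ}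

theorem nxt_shift (h : LFam U κ) {c : ℝ} (hc : c ∈ Ioo (0:ℝ) 1) (θ : ℝ) (k : ℤ) :
    nxt U c (θ + k * (2 * π)) = nxt U c θ + k * (2 * π) := by
  have hper : Function.Periodic (fun θ => nxt U c θ - θ) (2 * π) := by
    intro θ
    simp only [h.nxt_per hc]
    ring
  have := hper.int_mul k θ
  linarith

theorem nxt_angle (h : LFam U κ) {c : ℝ} (hc : c ∈ Ioo (0:ℝ) 1) (a b : ℝ) :
    ((nxt U c a : ℝ) : Real.Angle) = (nxt U c b : ℝ) ↔ (a : Real.Angle) = (b : ℝ) := by
  rw [Real.Angle.angle_eq_iff_two_pi_dvd_sub, Real.Angle.angle_eq_iff_two_pi_dvd_sub]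
  constructor
  · rintro ⟨k, hk⟩
    refine ⟨k, ?_⟩
    have h1 : nxt U c a = nxt U c (b + k * (2 * π)) := by
      rw [nxt_shift h hc]
      linarith
    have h2 := (h.strictMono_nxt hc).injective h1
    rw [h2]
    ring
  · rintro ⟨k, hk⟩
    refine ⟨k, ?_⟩
    have h1 : a = b + k * (2 * π) := by linarith
    rw [h1, nxt_shift h hc]
    ring

/-- One triangle gives the third iterate on the whole leaf. -/
theorem three_of_one (h : LFam U κ) {c : ℝ} (hc : c ∈ Ioo (0:ℝ) 1) {θ₀ : ℝ}
    (h3 : nxt U c (nxt U c (nxt U c θ₀)) = θ₀ + 2 * π) (θ : ℝ) :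
    nxt U c (nxt U c (nxt U c θ)) = θ + 2 * π := by
  have h1 : ∀ θ, hh U c (nxt U c (nxt U c (nxt U c θ))) = hh U c θ + 3 * rot U c := by
    intro θ
    rw [h.hh_nxt hc, h.hh_nxt hc, h.hh_nxt hc]
    ring
  have h2 : 3 * rot U c = 2 * π := by
    have := h1 θ₀
    rw [h3, h.hh_add hc] at this
    linarith
  apply (h.strictMono_hh hc).injective
  rw [h1, h2, h.hh_add hc]

/-- cyclic orders -/
theorem cyclic {T : Type*} {N : T → T} (hN : Function.Injective N) {a b d α β γ : T}
    (ha : α = a ∨ α = N a) (hb : α = b ∨ α = N b) (hb' : β = b ∨ β = N b) (hd : β = d ∨ β = N d)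
    (hd' : γ = d ∨ γ = N d) (ha' : γ = a ∨ γ = N a) (hab : a ≠ b) (hbd : b ≠ d) (hda : d ≠ a) :
    N (N (N a)) = a := by
  have k1 : a = N b ∨ b = N a := by
    rcases ha with rfl | rfl <;> rcases hb with h | h
    · exact absurd h hab
    · exact Or.inl h
    · exact Or.inr h.symm
    · exact absurd (hN h) hab
  have k2 : b = N d ∨ d = N b := by
    rcases hb' with rfl | rfl <;> rcases hd with h | h
    · exact absurd h hbd
    · exact Or.inl h
    · exact Or.inr h.symm
    · exact absurd (hN h) hbd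
  have k3 : d = N a ∨ a = N d := by
    rcases hd' with rfl | rfl <;> rcases ha' with h | h
    · exact absurd h hda
    · exact Or.inl h
    · exact Or.inr h.symm
    · exact absurd (hN h) hda
  rcases k1 with h1 | h1 <;> rcases k2 with h2 | h2 <;> rcases k3 with h3 | h3
  · rw [← h3, ← h2, ← h1]
  · exact absurd (hN (h1.symm.trans h3)) hbd
  · exact absurd (h2.trans h1.symm) hda
  · exact absurd (h2.trans h1.symm) hda
  · exact absurd (hN (h1.symm.trans h2)).symm hda
  · exact absurd (hN (h1.symm.trans h2)).symm hda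
  · exact absurd (h1.trans h3.symm) hbd
  · rw [← h1, ← h2, ← h3]

end Pool.Agent.MP_ae5b4e_an_c3
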